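import Mathlib
import Pool.Agent.N967.G.Fin4
import Pool.Agent.N967.G.Lam
import Pool.Agent.W355.UN.Inst

set_option autoImplicit false

/-!
# Baez-Duarte's distance for finite families of Dirichlet L-functions
-/

namespace Pool.Agent.N967.D

open Complex MeasureTheory Filter Topology
open Pool.Agent.TH839.NA (RawT RawTL rawTL_of_rawL)
open Pool.Agent.W355.UN (dir_raw zeta_raw)
open Pool.Agent.W355.LJ (parD)
open Pool.Agent.N967.G

section
variable {N : ℕ} [NeZero N] (χ : DirichletCharacter ℂ N)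

/-- the completed L-function of a primitive character -/
noncomputable def Lam (s : ℂ) : ℂ :=
  if N = 1 then s * (s - 1) * completedRiemannZeta₀ s + 1 else (N : ℂ) ^ (s / 2) * χ.completedLFunction s

/-- the power of `s (s - 1)` -/
noncomputable def fac (N : ℕ) (s : ℂ) : ℂ := if N = 1 then s * (s - 1) else 1

variable {χ}

lemma ne_one (hχ : χ.IsPrimitive) (hN : N ≠ 1) : χ ≠ 1 := by
  rintro rfl
  rw [DirichletCharacter.IsPrimitive, DirichletCharacter.conductor_one] at hχ
  exact hN hχ.symm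

lemma Lam_diff (hχ : χ.IsPrimitive) : Differentiable ℂ (Lam χ) := by
  by_cases hN : N = 1
  · have e : Lam χ = fun s => s * (s - 1) * completedRiemannZeta₀ s + 1 := by
      funext s
      rw [Lam, if_pos hN]
    rw [e]
    have h1 := differentiable_completedZeta₀
    fun_prop
  · have e : Lam χ = fun s => (N : ℂ) ^ (s / 2) * χ.completedLFunction s := by
      funext s
      rw [Lam, if_neg hN]
    rw [e]
    have h1 := DirichletCharacter.differentiable_completedLFunction (ne_one hχ hN)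
    have hN0 : (N : ℂ) ≠ 0 := by exact_mod_cast NeZero.ne N
    have h2 : Differentiable ℂ fun s : ℂ => (N : ℂ) ^ (s / 2) :=
      (differentiable_id.div_const 2).const_cpow (Or.inl hN0)
    exact h2.mul h1

omit [NeZero N] in
lemma gfac (s : ℂ) : χ.gammaFactor s = Gammaℝ (s + (parD χ : ℂ)) := by
  classical
  unfold DirichletCharacter.gammaFactor parD
  split_ifs <;> simp

omit [NeZero N] in
lemma gfac_ne {s : ℂ} (h0 : 0 < s.re) : Gammaℝ (s + (parD χ : ℂ)) ≠ 0 := by
  refine Gammaℝ_ne_zero_of_re_pos ?_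
  unfold parD
  split_ifs <;> simp <;> linarith

lemma Lam_eq {s : ℂ} (h0 : 0 < s.re) (h1 : N = 1 → s ≠ 1) :
    Lam χ s = fac N s * ((N : ℂ) ^ (s / 2) * Gammaℝ (s + (parD χ : ℂ))) * χ.LFunction s := by
  have hs0 : s ≠ 0 := by
    rintro rfl
    simp at h0
  have hg := gfac_ne (χ := χ) h0
  have h2 := DirichletCharacter.LFunction_eq_completed_div_gammaFactor χ s (Or.inl hs0)
  rw [gfac] at h2
  by_cases hN : N = 1
  · subst hN
    have hs1 := h1 rfl
    have hs1' : s - 1 ≠ 0 := sub_ne_zero.2 hs1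
    have hs1'' : 1 - s ≠ 0 := sub_ne_zero.2 (Ne.symm hs1)
    rw [Lam, if_pos rfl, fac, if_pos rfl, h2, DirichletCharacter.completedLFunction_modOne_eq,
      completedRiemannZeta_eq]
    field_simp
    simp
    ring
  · rw [Lam, if_neg hN, fac, if_neg hN, h2]
    field_simp

/-- one character -/
theorem one_raw (hχ : χ.IsPrimitive) : ∃ (b c : ℕ → ℂ) (X : ℂ → ℂ),
    RawTL 0 [(parD χ : ℂ)] (if N = 1 then 1 else 0) (N : ℝ) b c X ∧ ∃ σ : ℝ, ∀ s : ℂ, σ ≤ s.re →
      X s = Lam χ s ∧ LSeries b s = χ.LFunction s := by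
  by_cases hN : N = 1
  · subst hN
    have hp : (parD χ : ℂ) = 0 := by
      have he : χ.Even := by
        have : (-1 : ZMod 1) = 1 := Subsingleton.elim _ _
        rw [DirichletCharacter.Even, this, map_one]
      classical
      unfold parD
      rw [if_pos he, Complex.ofReal_zero]
    refine ⟨fun _ => 1, fun _ => 1, fun s => s * (s - 1) * completedRiemannZeta₀ s + 1, ?_, 2,
      fun s hs => ⟨?_, ?_⟩⟩
    · rw [hp, if_pos rfl, Nat.cast_one]
      exact rawTL_of_rawL zeta_raw
    · rw [Lam, if_pos rfl]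
    · rw [DirichletCharacter.LFunction_eq_LSeries χ (by linarith)]
      refine LSeries_congr (fun {n} _ => ?_) s
      have : ((n : ℕ) : ZMod 1) = 1 := Subsingleton.elim _ _
      rw [this, map_one]
  · have hN1 : 1 < N := by
      have := NeZero.ne N
      omega
    obtain ⟨X, hX⟩ := dir_raw N χ hN1 hχ
    obtain ⟨σ, hσ⟩ := hX.eq
    refine ⟨_, _, X, by rw [if_neg hN]; exact rawTL_of_rawL hX, max σ 2, fun s hs => ⟨?_, ?_⟩⟩
    · have hs2 : 2 ≤ s.re := (le_max_right _ _).trans hs
      rw [hσ s ((le_max_left _ _).trans hs), Lam_eq (by linarith) (fun h => absurd h hN), fac, if_neg hN,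
        DirichletCharacter.LFunction_eq_LSeries χ (by linarith)]
      simp
    · have hs2 : 2 ≤ s.re := (le_max_right _ _).trans hs
      rw [DirichletCharacter.LFunction_eq_LSeries χ (by linarith)]

lemma Lam_one_ne (hχ : χ.IsPrimitive) : Lam χ 1 ≠ 0 := by
  by_cases hN : N = 1
  · rw [Lam, if_pos hN]
    simp
  · rw [Lam_eq (by simp) (fun h => absurd h hN), fac, if_neg hN, one_mul]
    have hN0 : (N : ℂ) ≠ 0 := by exact_mod_cast NeZero.ne N
    refine mul_ne_zero (mul_ne_zero ?_ (gfac_ne (by simp))) ?_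
    · rw [Ne, Complex.cpow_eq_zero_iff]
      exact fun h => hN0 h.1
    · exact DirichletCharacter.LFunction_apply_one_ne_zero (ne_one hχ hN)

/-- the functional equation -/
theorem Lam_fe (hχ : χ.IsPrimitive) : ∃ ε : ℂ, ‖ε‖ = 1 ∧ ∀ s : ℂ,
    Lam χ s = ε * (starRingEnd ℂ) (Lam χ (1 - (starRingEnd ℂ) s)) := by
  obtain ⟨b, c, X, hr, σ, hσ⟩ := one_raw hχ
  have hX : X = Lam χ := by
    have h1 : AnalyticOnNhd ℂ X Set.univ := fun z _ => hr.entire.analyticAt z
    have h2 : AnalyticOnNhd ℂ (Lam χ) Set.univ := fun z _ => (Lam_diff hχ).analyticAt z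
    have h3 : X =ᶠ[𝓝 (((σ + 1 : ℝ)) : ℂ)] Lam χ := by
      have hmem : {s : ℂ | σ < s.re} ∈ 𝓝 ((σ + 1 : ℝ) : ℂ) := by
        refine (isOpen_lt continuous_const Complex.continuous_re).mem_nhds ?_
        show σ < ((σ + 1 : ℝ) : ℂ).re
        rw [Complex.ofReal_re]
        linarith
      filter_upwards [hmem] with z hz
      exact (hσ z (le_of_lt hz)).1
    funext s
    exact h1.eqOn_of_preconnected_of_eventuallyEq h2 isPreconnected_univ (Set.mem_univ _) h3 (Set.mem_univ s)
  rw [← hX]
  exact hr.fe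

end

/-- finite families of primitive characters -/
theorem fam {ι : Type} [Fintype ι] [Nonempty ι] (q : ι → ℕ) [∀ i, NeZero (q i)]
    (χ : ∀ i, DirichletCharacter ℂ (q i)) (hχ : ∀ i, (χ i).IsPrimitive) :
    BaezDuarte (fun s => ∏ i, Lam (χ i) s) (fun s => ∏ i, (χ i).LFunction s) (1 / 2) := by
  have hl : (Finset.univ : Finset ι).toList ≠ [] := by
    intro h
    obtain ⟨i⟩ := ‹Nonempty ι›
    have h1 : i ∈ (Finset.univ : Finset ι).toList := Finset.mem_toList.2 (Finset.mem_univ _)
    rw [h] at h1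
    exact List.not_mem_nil h1
  obtain ⟨θ', b, c, X, hr, σ, hσ⟩ := list_mul _ _ _ _ _ _ (fun i => one_raw (hχ i))
    (Finset.univ : Finset ι).toList hl
  simp only [Finset.prod_map_toList, Finset.sum_map_toList] at hr hσ
  have hΛ : Differentiable ℂ fun s => ∏ i, Lam (χ i) s :=
    Differentiable.fun_finsetProd fun i _ => Lam_diff (hχ i)
  have hX : ∀ s : ℂ, X s = ∏ i, Lam (χ i) s := by
    have h1 : AnalyticOnNhd ℂ X Set.univ := fun z _ => hr.entire.analyticAt z
    have h2 : AnalyticOnNhd ℂ (fun s : ℂ => ∏ i, Lam (χ i) s) Set.univ := fun z _ => hΛ.analyticAt z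
    have h3 : X =ᶠ[𝓝 (((σ + 1 : ℝ)) : ℂ)] fun s : ℂ => ∏ i, Lam (χ i) s := by
      have hmem : {s : ℂ | σ < s.re} ∈ 𝓝 ((σ + 1 : ℝ) : ℂ) := by
        refine (isOpen_lt continuous_const Complex.continuous_re).mem_nhds ?_
        show σ < ((σ + 1 : ℝ) : ℂ).re
        rw [Complex.ofReal_re]
        linarith
      filter_upwards [hmem] with z hz
      exact (hσ z (le_of_lt hz)).1
    intro s
    exact h1.eqOn_of_preconnected_of_eventuallyEq h2 isPreconnected_univ (Set.mem_univ _) h3 (Set.mem_univ s)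
  have e1 : (1 / 2 : ℝ) = 1 / 2 + 0 := by norm_num
  rw [e1]
  refine bd_fin lamS hr (fun j => ?_) (fun _ => ?_) one_ne_zero (fun s => ?_) ?_ ⟨σ, fun s hs => ?_⟩
  · have h1 : ∀ x ∈ (Finset.univ : Finset ι).toList.flatMap
        (fun i => [(parD (χ i) : ℂ)]), -1 / 2 < x.re := by
      intro x hx
      obtain ⟨i, _, hi⟩ := List.mem_flatMap.1 hx
      rw [List.mem_singleton] at hi
      rw [hi, Complex.ofReal_re]
      unfold parD
      split_ifs <;> norm_num
    exact h1 _ (List.get_mem _ j)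
  · rw [hX, Finset.prod_ne_zero_iff]
    exact fun i _ => Lam_one_ne (hχ i)
  · rw [hX, one_mul, Complex.ofReal_zero, add_zero]
  · intro s hs
    simp only [Set.mem_compl_iff, Set.mem_insert_iff, Set.mem_singleton_iff, not_or] at hs
    refine DifferentiableAt.differentiableWithinAt ?_
    refine DifferentiableAt.fun_finsetProd fun i _ => ?_
    have h1 : DifferentiableAt ℂ (χ i).LFunction (s + ((0 : ℝ) : ℂ)) :=
      DirichletCharacter.differentiableAt_LFunction _ _ (Or.inl (by simpa using hs.2))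
    exact h1.comp s (differentiableAt_id.add_const _)
  · rw [Complex.ofReal_zero, add_zero, (hσ s hs).2]

end Pool.Agent.N967.D
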