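import Mathlib
import Pool.Agent.N967.D.One

set_option autoImplicit false

/-!
# Zeros of Dirichlet L-functions in the critical strip and of the completed functions
-/

namespace Pool.Agent.N967.D

open Complex MeasureTheory Filter Topology
open Pool.Agent.W355.LJ (parD)

/-! ### complex conjugation and products (copied from the starting module Y683.AA.TWc) -/

/-- `conj F(conj s)` -/
noncomputable def cj (F : ℂ → ℂ) (s : ℂ) : ℂ := (starRingEnd ℂ) (F ((starRingEnd ℂ) s))

lemma diffAt_cj {F : ℂ → ℂ} {s : ℂ} (h : DifferentiableAt ℂ F ((starRingEnd ℂ) s)) :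
    DifferentiableAt ℂ (cj F) s := differentiableAt_conj_conj_iff.2 h

lemma cont_conj : Continuous (fun s : ℂ => (starRingEnd ℂ) s) := Complex.continuous_conj

lemma ana_cj {F : ℂ → ℂ} {s : ℂ} (h : AnalyticAt ℂ F ((starRingEnd ℂ) s)) :
    AnalyticAt ℂ (cj F) s := by
  rw [analyticAt_iff_eventually_differentiableAt] at h ⊢
  have h2 := (cont_conj.tendsto s).eventually h
  filter_upwards [h2] with z hz
  exact diffAt_cj hz

lemma order_cj {F : ℂ → ℂ} {s : ℂ} (h : AnalyticAt ℂ F ((starRingEnd ℂ) s)) :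
    analyticOrderAt (cj F) s = analyticOrderAt F ((starRingEnd ℂ) s) := by
  rcases eq_or_ne (analyticOrderAt F ((starRingEnd ℂ) s)) ⊤ with h0 | h0
  · rw [h0, analyticOrderAt_eq_top]
    rw [analyticOrderAt_eq_top] at h0
    have h2 := (cont_conj.tendsto s).eventually h0
    filter_upwards [h2] with z hz
    simp [cj, hz]
  · obtain ⟨n, hn⟩ := ENat.ne_top_iff_exists.mp h0
    rw [← hn]
    obtain ⟨g, hg, hg0, hfg⟩ := (h.analyticOrderAt_eq_natCast).mp hn.symm
    rw [(ana_cj h).analyticOrderAt_eq_natCast]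
    refine ⟨cj g, ana_cj hg, ?_, ?_⟩
    · simp [cj, hg0]
    · have h2 := (cont_conj.tendsto s).eventually hfg
      filter_upwards [h2] with z hz
      simp only [cj, hz, smul_eq_mul, map_mul, map_pow, map_sub, Complex.conj_conj]

/-- the order of a product -/
lemma order_prod {ι : Type*} (s : Finset ι) (F : ι → ℂ → ℂ) {a : ℂ}
    (h : ∀ i ∈ s, AnalyticAt ℂ (F i) a) :
    AnalyticAt ℂ (fun z => ∏ i ∈ s, F i z) a ∧
      analyticOrderAt (fun z => ∏ i ∈ s, F i z) a = ∑ i ∈ s, analyticOrderAt (F i) a := by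
  classical
  induction s using Finset.induction_on with
  | empty =>
    refine ⟨by simpa using analyticAt_const, ?_⟩
    simp only [Finset.prod_empty, Finset.sum_empty]
    rw [analyticAt_const.analyticOrderAt_eq_zero]
    exact one_ne_zero
  | insert i s hi ih =>
    obtain ⟨h1, h2⟩ := ih fun j hj => h j (Finset.mem_insert_of_mem hj)
    have h3 := h i (Finset.mem_insert_self i s)
    have h4 : (fun z => ∏ j ∈ insert i s, F j z) = F i * fun z => ∏ j ∈ s, F j z := by
      funext z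
      rw [Finset.prod_insert hi]
      rfl
    rw [h4]
    refine ⟨h3.mul h1, ?_⟩
    rw [analyticOrderAt_mul h3 h1, h2, Finset.sum_insert hi]

/-- the order of a product, as a natural number -/
lemma orderNat_prod {ι : Type*} (s : Finset ι) (F : ι → ℂ → ℂ) {a : ℂ}
    (h : ∀ i ∈ s, AnalyticAt ℂ (F i) a) (ht : ∀ i ∈ s, analyticOrderAt (F i) a ≠ ⊤) :
    analyticOrderNatAt (fun z => ∏ i ∈ s, F i z) a = ∑ i ∈ s, analyticOrderNatAt (F i) a := by
  obtain ⟨h1, h2⟩ := order_prod s F h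
  have h3 : analyticOrderAt (fun z => ∏ i ∈ s, F i z) a =
      ((∑ i ∈ s, analyticOrderNatAt (F i) a : ℕ) : ℕ∞) := by
    rw [h2, Nat.cast_sum]
    exact Finset.sum_congr rfl fun i hi => (Nat.cast_analyticOrderNatAt (ht i hi)).symm
  rw [analyticOrderNatAt, h3]
  rfl

/-- a factor which is not zero does not change the order -/
lemma order_unit {F G E : ℂ → ℂ} {s : ℂ} (hE : AnalyticAt ℂ E s) (hE0 : E s ≠ 0) (hF : AnalyticAt ℂ F s)
    (h : G =ᶠ[𝓝 s] fun z => E z * F z) : analyticOrderAt G s = analyticOrderAt F s := by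
  rw [analyticOrderAt_congr h]
  have h1 : (fun z => E z * F z) = E * F := rfl
  rw [h1, analyticOrderAt_mul hE hF, hE.analyticOrderAt_eq_zero.2 hE0, zero_add]

section
variable {N : ℕ} [NeZero N] {χ : DirichletCharacter ℂ N}

omit [NeZero N] in
lemma fac_ne {s : ℂ} (h0 : s ≠ 0) (h1 : s ≠ 1) : fac N s ≠ 0 := by
  unfold fac
  split_ifs
  · exact mul_ne_zero h0 (sub_ne_zero.2 h1)
  · exact one_ne_zero

omit [NeZero N] in
lemma fac_an (s : ℂ) : AnalyticAt ℂ (fac N) s := by
  by_cases hN : N = 1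
  · have e : fac N = fun s => s * (s - 1) := by
      funext s
      rw [fac, if_pos hN]
    rw [e]
    fun_prop
  · have e : fac N = fun _ => 1 := by
      funext s
      rw [fac, if_neg hN]
    rw [e]
    fun_prop

lemma Lam_ne (hχ : χ.IsPrimitive) {s : ℂ} (hs : 1 ≤ s.re) : Lam χ s ≠ 0 := by
  by_cases h1 : s = 1
  · rw [h1]
    exact Lam_one_ne hχ
  · have hs0 : s ≠ 0 := by
      rintro rfl
      simp at hs
      linarith
    have hN0 : (N : ℂ) ≠ 0 := by exact_mod_cast NeZero.ne N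
    rw [Lam_eq (by linarith) (fun _ => h1)]
    refine mul_ne_zero (mul_ne_zero (fac_ne hs0 h1) (mul_ne_zero ?_ (gfac_ne (by linarith)))) ?_
    · rw [Ne, Complex.cpow_eq_zero_iff]
      exact fun h => hN0 h.1
    · exact DirichletCharacter.LFunction_ne_zero_of_one_le_re χ (Or.inr h1) hs

lemma Lam_zero (hχ : χ.IsPrimitive) {s : ℂ} :
    Lam χ s = 0 ↔ (0 < s.re ∧ s.re < 1) ∧ χ.LFunction s = 0 := by
  have hN0 : (N : ℂ) ≠ 0 := by exact_mod_cast NeZero.ne N
  constructor
  · intro h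
    have h1 : s.re < 1 := by
      by_contra hcon
      exact Lam_ne hχ (not_lt.1 hcon) h
    have h0 : 0 < s.re := by
      by_contra hcon
      obtain ⟨ε, hε, hfe⟩ := Lam_fe hχ
      rw [hfe s] at h
      have h2 : ε ≠ 0 := by
        rw [← norm_pos_iff, hε]
        norm_num
      have h3 := (mul_eq_zero.1 h).resolve_left h2
      have h4 : Lam χ (1 - (starRingEnd ℂ) s) = 0 := by simpa using h3
      refine Lam_ne hχ ?_ h4
      rw [Complex.sub_re, Complex.one_re, Complex.conj_re]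
      linarith
    refine ⟨⟨h0, h1⟩, ?_⟩
    have hs1 : s ≠ 1 := by
      rintro rfl
      simp at h1
    have hs0 : s ≠ 0 := by
      rintro rfl
      simp at h0
    rw [Lam_eq h0 (fun _ => hs1)] at h
    refine (mul_eq_zero.1 h).resolve_left (mul_ne_zero (fac_ne hs0 hs1) (mul_ne_zero ?_ (gfac_ne h0)))
    rw [Ne, Complex.cpow_eq_zero_iff]
    exact fun h => hN0 h.1
  · rintro ⟨⟨h0, h1⟩, h⟩
    have hs1 : s ≠ 1 := by
      rintro rfl
      simp at h1
    rw [Lam_eq h0 (fun _ => hs1), h, mul_zero]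

lemma L_an {s : ℂ} (h1 : s ≠ 1) : AnalyticAt ℂ χ.LFunction s := by
  have h2 : ∀ᶠ z in 𝓝 s, z ≠ 1 := isOpen_ne.mem_nhds h1
  rw [analyticAt_iff_eventually_differentiableAt]
  filter_upwards [h2] with z hz
  exact DirichletCharacter.differentiableAt_LFunction _ _ (Or.inl hz)

lemma Lam_an (hχ : χ.IsPrimitive) (s : ℂ) : AnalyticAt ℂ (Lam χ) s := (Lam_diff hχ).analyticAt s

lemma Lam_ord_ne (hχ : χ.IsPrimitive) (s : ℂ) : analyticOrderAt (Lam χ) s ≠ ⊤ := by
  intro h0
  rw [analyticOrderAt_eq_top] at h0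
  have h3 : AnalyticOnNhd ℂ (Lam χ) Set.univ := fun z _ => Lam_an hχ z
  exact Lam_one_ne hχ
    (h3.eqOn_zero_of_preconnected_of_eventuallyEq_zero isPreconnected_univ (Set.mem_univ s) h0 (Set.mem_univ 1))

lemma Lam_ord (hχ : χ.IsPrimitive) {s : ℂ} (h0 : 0 < s.re) (h1 : s.re < 1) :
    analyticOrderAt χ.LFunction s = analyticOrderAt (Lam χ) s := by
  have hs1 : s ≠ 1 := by
    rintro rfl
    simp at h1
  have hs0 : s ≠ 0 := by
    rintro rfl
    simp at h0
  have hN0 : (N : ℂ) ≠ 0 := by exact_mod_cast NeZero.ne N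
  have hE : AnalyticAt ℂ (fun z : ℂ => (fac N z)⁻¹ * ((N : ℂ) ^ (-(z / 2)) * (Gammaℝ (z + (parD χ : ℂ)))⁻¹)) s := by
    have h2 : Differentiable ℂ fun s : ℂ => (N : ℂ) ^ (-(s / 2)) :=
      (differentiable_id.div_const 2).neg.const_cpow (Or.inl hN0)
    have h3 : Differentiable ℂ fun s : ℂ => (Gammaℝ (s + (parD χ : ℂ)))⁻¹ :=
      differentiable_Gammaℝ_inv.comp (differentiable_id.add_const _)
    exact ((fac_an s).inv (fac_ne hs0 hs1)).mul ((h2.analyticAt s).mul (h3.analyticAt s))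
  refine order_unit hE ?_ (Lam_an hχ s) ?_
  · refine mul_ne_zero (inv_ne_zero (fac_ne hs0 hs1)) (mul_ne_zero ?_ (inv_ne_zero (gfac_ne h0)))
    rw [Ne, Complex.cpow_eq_zero_iff]
    exact fun h => hN0 h.1
  · have h2 : ∀ᶠ z in 𝓝 s, z ≠ 1 := isOpen_ne.mem_nhds hs1
    have h3 : ∀ᶠ z in 𝓝 s, z ≠ 0 := isOpen_ne.mem_nhds hs0
    have h4 : ∀ᶠ z : ℂ in 𝓝 s, 0 < z.re := (isOpen_lt continuous_const Complex.continuous_re).mem_nhds h0
    filter_upwards [h2, h3, h4] with z hz1 hz0 hzr
    rw [Lam_eq hzr (fun _ => hz1), Complex.cpow_neg]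
    have h5 := fac_ne (N := N) hz0 hz1
    have h6 : (N : ℂ) ^ (z / 2) ≠ 0 := by
      rw [Ne, Complex.cpow_eq_zero_iff]
      exact fun h => hN0 h.1
    have h7 := gfac_ne (χ := χ) hzr
    field_simp

end

section
variable {q : ℕ} [NeZero q] (χ : DirichletCharacter ℂ q)

instance : NeZero χ.conductor := ⟨DirichletCharacter.conductor_ne_zero _⟩

/-- the Euler factors at the primes dividing the modulus -/
noncomputable def eul (s : ℂ) : ℂ := ∏ p ∈ q.primeFactors, (1 - χ.primitiveCharacter (p : ZMod χ.conductor) * (p : ℂ) ^ (-s))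

lemma L_prim {s : ℂ} (hs : s ≠ 1) : χ.LFunction s = eul χ s * χ.primitiveCharacter.LFunction s := by
  have h1 := DirichletCharacter.LFunction_changeLevel χ.conductor_dvd_level χ.primitiveCharacter (s := s) (Or.inr hs)
  rw [DirichletCharacter.changeLevel_primitiveCharacter] at h1
  rw [h1, mul_comm]
  rfl

omit [NeZero q] in
lemma eul_an (s : ℂ) : AnalyticAt ℂ (eul χ) s := by
  have h : Differentiable ℂ (eul χ) := by
    unfold eul
    refine Differentiable.fun_finsetProd fun p hp => ?_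
    have hp0 : (p : ℂ) ≠ 0 := by exact_mod_cast (Nat.prime_of_mem_primeFactors hp).ne_zero
    have h2 : Differentiable ℂ fun s : ℂ => (p : ℂ) ^ (-s) := differentiable_id.neg.const_cpow (Or.inl hp0)
    exact (h2.const_mul _).const_sub _
  exact h.analyticAt s

omit [NeZero q] in
lemma eul_ne {s : ℂ} (hs : 0 < s.re) : eul χ s ≠ 0 := by
  unfold eul
  rw [Finset.prod_ne_zero_iff]
  intro p hp h
  have hpp := Nat.prime_of_mem_primeFactors hp
  have h1 : χ.primitiveCharacter (p : ZMod χ.conductor) * (p : ℂ) ^ (-s) = 1 := (sub_eq_zero.1 h).symm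
  have h2 := congrArg norm h1
  rw [norm_mul, norm_one, Complex.norm_natCast_cpow_of_pos hpp.pos, Complex.neg_re] at h2
  have h3 : (p : ℝ) ^ (-s.re) < 1 :=
    Real.rpow_lt_one_of_one_lt_of_neg (by exact_mod_cast hpp.one_lt) (by linarith)
  have h4 := χ.primitiveCharacter.norm_le_one (p : ZMod χ.conductor)
  have h5 : 0 ≤ (p : ℝ) ^ (-s.re) := Real.rpow_nonneg (Nat.cast_nonneg _) _
  nlinarith

lemma zero_prim {s : ℂ} (h0 : 0 < s.re) (h1 : s.re < 1) :
    χ.LFunction s = 0 ↔ χ.primitiveCharacter.LFunction s = 0 := by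
  have hs1 : s ≠ 1 := by
    rintro rfl
    simp at h1
  rw [L_prim χ hs1, mul_eq_zero]
  exact ⟨fun h => h.resolve_left (eul_ne χ h0), Or.inr⟩

lemma ord_prim {s : ℂ} (h0 : 0 < s.re) (h1 : s.re < 1) :
    analyticOrderAt χ.LFunction s = analyticOrderAt χ.primitiveCharacter.LFunction s := by
  have hs1 : s ≠ 1 := by
    rintro rfl
    simp at h1
  refine order_unit (eul_an χ s) (eul_ne χ h0) (L_an hs1) ?_
  have h2 : ∀ᶠ z in 𝓝 s, z ≠ 1 := isOpen_ne.mem_nhds hs1
  filter_upwards [h2] with z hz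
  exact L_prim χ hz

/-- everything for the completed function of the primitive character -/
lemma ord_lam {s : ℂ} (h0 : 0 < s.re) (h1 : s.re < 1) :
    analyticOrderAt χ.LFunction s = analyticOrderAt (Lam χ.primitiveCharacter) s := by
  rw [ord_prim χ h0 h1, Lam_ord (DirichletCharacter.primitiveCharacter_isPrimitive _) h0 h1]

lemma zero_lam {s : ℂ} : Lam χ.primitiveCharacter s = 0 ↔ (0 < s.re ∧ s.re < 1) ∧ χ.LFunction s = 0 := by
  rw [Lam_zero (DirichletCharacter.primitiveCharacter_isPrimitive _)]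
  constructor
  · rintro ⟨h, h2⟩
    exact ⟨h, (zero_prim χ h.1 h.2).2 h2⟩
  · rintro ⟨h, h2⟩
    exact ⟨h, (zero_prim χ h.1 h.2).1 h2⟩

lemma ord_ne {s : ℂ} (h0 : 0 < s.re) (h1 : s.re < 1) : analyticOrderAt χ.LFunction s ≠ ⊤ := by
  rw [ord_lam χ h0 h1]
  exact Lam_ord_ne (DirichletCharacter.primitiveCharacter_isPrimitive _) s

end

section
variable {N : ℕ} [NeZero N] (χ : DirichletCharacter ℂ N)

open Classical in
/-- `2 Re (Λ'/Λ)(1, χ)` -/
noncomputable def cst : ℝ :=
  if N = 1 then 2 + Real.eulerMascheroniConstant - Real.log (4 * Real.pi)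
  else Real.log (N / Real.pi) - Real.eulerMascheroniConstant - (if χ.Even then 2 * Real.log 2 else 0) +
    2 * (deriv χ.LFunction 1 / χ.LFunction 1).re

lemma hasDerivAt_Gammaℝ_two : HasDerivAt Gammaℝ
    (-(((Real.eulerMascheroniConstant + Real.log Real.pi : ℝ) : ℂ)) / 2 * Gammaℝ 2) 2 := by
  have hpi : (Real.pi : ℂ) ≠ 0 := by exact_mod_cast Real.pi_ne_zero
  have hf : HasDerivAt (fun s : ℂ => (Real.pi : ℂ) ^ (-s / 2))
      ((Real.pi : ℂ) ^ (-(2 : ℂ) / 2) * Complex.log Real.pi * (-1 / 2)) 2 :=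
    ((hasDerivAt_neg (2 : ℂ)).div_const 2).const_cpow (Or.inl hpi)
  have hg : HasDerivAt (fun s : ℂ => Complex.Gamma (s / 2))
      (-(Real.eulerMascheroniConstant : ℂ) * (1 / 2)) 2 := by
    have h1 : HasDerivAt (fun s : ℂ ↦ s / 2) (1 / 2) (2 : ℂ) := (hasDerivAt_id _).div_const _
    have h2 : HasDerivAt Complex.Gamma (-(Real.eulerMascheroniConstant : ℂ)) ((2 : ℂ) / 2) := by
      rw [div_self two_ne_zero]
      exact Complex.hasDerivAt_Gamma_one
    exact HasDerivAt.comp (h := fun s : ℂ => s / 2) 2 h2 h1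
  refine HasDerivAt.congr_deriv (f := Gammaℝ) (hf.mul hg) ?_
  rw [Gammaℝ_def, div_self two_ne_zero, Complex.Gamma_one, ← Complex.ofReal_log Real.pi_pos.le]
  push_cast
  ring

theorem cst_eq (hχ : χ.IsPrimitive) : 2 * (logDeriv (Lam χ) 1).re = cst χ := by
  by_cases hN : N = 1
  · have e : Lam χ = fun s => s * (s - 1) * completedRiemannZeta₀ s + 1 := by
      funext s
      rw [Lam, if_pos hN]
    have h1 : HasDerivAt (fun s : ℂ => s * (s - 1)) (1 * (1 - 1) + 1 * 1) (1 : ℂ) :=
      (hasDerivAt_id (1 : ℂ)).mul ((hasDerivAt_id (1 : ℂ)).sub_const 1)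
    have h2 : HasDerivAt completedRiemannZeta₀ (deriv completedRiemannZeta₀ 1) 1 :=
      (differentiable_completedZeta₀ 1).hasDerivAt
    have h3 : HasDerivAt (fun s : ℂ => s * (s - 1) * completedRiemannZeta₀ s + 1)
        ((1 * (1 - 1) + 1 * 1) * completedRiemannZeta₀ 1 + 1 * (1 - 1) * deriv completedRiemannZeta₀ 1) 1 :=
      (h1.mul h2).add_const 1
    rw [logDeriv_apply, e, h3.deriv, cst, if_pos hN, completedRiemannZeta₀_one]
    have h4 : Complex.log (4 * (Real.pi : ℂ)) = ((Real.log (4 * Real.pi) : ℝ) : ℂ) := by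
      rw [Complex.ofReal_log (by positivity)]
      push_cast
      rfl
    rw [h4]
    have h5 : ((1 * (1 - 1) + 1 * 1) * (((Real.eulerMascheroniConstant : ℂ) -
        ((Real.log (4 * Real.pi) : ℝ) : ℂ)) / 2 + 1) + 1 * (1 - 1) * deriv completedRiemannZeta₀ 1) /
        (1 * (1 - 1) * completedRiemannZeta₀ 1 + 1) =
        (((Real.eulerMascheroniConstant - Real.log (4 * Real.pi)) / 2 + 1 : ℝ) : ℂ) := by
      push_cast
      ring
    rw [h5, Complex.ofReal_re]
    ring
  · have hN0 : (N : ℂ) ≠ 0 := by exact_mod_cast NeZero.ne N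
    have hNr : (0 : ℝ) < N := by exact_mod_cast Nat.pos_of_ne_zero (NeZero.ne N)
    have hev : Lam χ =ᶠ[𝓝 1] fun s => (N : ℂ) ^ (s / 2) * Gammaℝ (s + (parD χ : ℂ)) * χ.LFunction s := by
      have h4 : ∀ᶠ z : ℂ in 𝓝 1, 0 < z.re :=
        (isOpen_lt continuous_const Complex.continuous_re).mem_nhds (by simp)
      filter_upwards [h4] with z hz
      rw [Lam_eq hz (fun h => absurd h hN), fac, if_neg hN, one_mul]
    have h1 : HasDerivAt (fun s : ℂ => (N : ℂ) ^ (s / 2))
        ((N : ℂ) ^ ((1 : ℂ) / 2) * Complex.log N * (1 / 2)) 1 :=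
      ((hasDerivAt_id (1 : ℂ)).div_const 2).const_cpow (Or.inl hN0)
    have hG : ∃ g : ℝ, HasDerivAt (fun s : ℂ => Gammaℝ (s + (parD χ : ℂ)))
        (((g : ℝ) : ℂ) / 2 * Gammaℝ (1 + (parD χ : ℂ))) 1 ∧
        g = -(Real.eulerMascheroniConstant + Real.log Real.pi) -
          (open Classical in if χ.Even then 2 * Real.log 2 else 0) := by
      classical
      by_cases he : χ.Even
      · refine ⟨_, ?_, rfl⟩
        have hp : (parD χ : ℂ) = 0 := by
          unfold parD
          rw [if_pos he, Complex.ofReal_zero]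
        rw [hp, if_pos he]
        simp only [add_zero]
        have h2 := Complex.hasDerivAt_Gammaℝ_one
        rw [Gammaℝ_one]
        refine h2.congr_deriv ?_
        have h4 : Complex.log (4 * (Real.pi : ℂ)) = ((Real.log (4 * Real.pi) : ℝ) : ℂ) := by
          rw [Complex.ofReal_log (by positivity)]
          push_cast
          rfl
        have h5 : Real.log (4 * Real.pi) = 2 * Real.log 2 + Real.log Real.pi := by
          rw [Real.log_mul (by norm_num) Real.pi_ne_zero, show (4 : ℝ) = 2 ^ 2 by norm_num, Real.log_pow]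
          push_cast
          ring
        rw [h4, h5]
        push_cast
        ring
      · refine ⟨_, ?_, rfl⟩
        have hp : (parD χ : ℂ) = 1 := by
          unfold parD
          rw [if_neg he, Complex.ofReal_one]
        rw [hp, if_neg he]
        have h2 : HasDerivAt Gammaℝ
            (-(((Real.eulerMascheroniConstant + Real.log Real.pi : ℝ) : ℂ)) / 2 * Gammaℝ 2) ((1 : ℂ) + 1) := by
          rw [show (1 : ℂ) + 1 = 2 by norm_num]
          exact hasDerivAt_Gammaℝ_two
        have h3 : HasDerivAt (fun s : ℂ => s + 1) 1 (1 : ℂ) := (hasDerivAt_id _).add_const _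
        have h4 := HasDerivAt.comp (h := fun s : ℂ => s + 1) 1 h2 h3
        refine HasDerivAt.congr_deriv h4 ?_
        rw [show (1 : ℂ) + 1 = 2 by norm_num]
        push_cast
        ring
    obtain ⟨g, hg, hge⟩ := hG
    have hL : HasDerivAt χ.LFunction (deriv χ.LFunction 1) 1 :=
      (DirichletCharacter.differentiableAt_LFunction _ _ (Or.inr (ne_one hχ hN))).hasDerivAt
    have hL0 := DirichletCharacter.LFunction_apply_one_ne_zero (ne_one hχ hN)
    have hNp : (N : ℂ) ^ ((1 : ℂ) / 2) ≠ 0 := by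
      rw [Ne, Complex.cpow_eq_zero_iff]
      exact fun h => hN0 h.1
    have hG0 : Gammaℝ (1 + (parD χ : ℂ)) ≠ 0 := gfac_ne (by simp)
    have hd := (h1.mul hg).mul hL
    have h6 : logDeriv (Lam χ) 1 = ((((Real.log N + g) / 2 : ℝ) : ℂ)) + deriv χ.LFunction 1 / χ.LFunction 1 := by
      rw [logDeriv_apply, hev.deriv_eq, hev.eq_of_nhds]
      have h7 : deriv (fun s => (N : ℂ) ^ (s / 2) * Gammaℝ (s + (parD χ : ℂ)) * χ.LFunction s) 1 = _ := hd.deriv
      rw [h7]
      simp only [Pi.mul_apply]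
      have h8 : Complex.log (N : ℂ) = ((Real.log N : ℝ) : ℂ) := by
        rw [Complex.ofReal_log hNr.le, Complex.ofReal_natCast]
      rw [h8]
      push_cast
      field_simp
    rw [h6, Complex.add_re, Complex.ofReal_re, hge, cst, if_neg hN, Real.log_div hNr.ne' Real.pi_ne_zero]
    ring

end

end Pool.Agent.N967.D
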