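import Mathlib
import Pool.Agent.N967.D.Zer

set_option autoImplicit false

/-!
# Vertical shifts
-/

namespace Pool.Agent.N967.D

open Complex MeasureTheory Filter Topology
open Pool.Agent.TH839.NA (RawT RawTL rawTL_of_rawL)
open Pool.Agent.W355.LJ (parD)
open Pool.Agent.N967.G
open Pool.Agent.W355.UN (Conv)

/-- `n^(-iτ)` -/
noncomputable def tw (τ : ℝ) (n : ℕ) : ℂ := (n : ℂ) ^ (-((τ : ℂ) * I))

lemma tw_mul (τ : ℝ) (m n : ℕ) : tw τ (m * n) = tw τ m * tw τ n := by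
  unfold tw
  rw [Nat.cast_mul, Complex.natCast_mul_natCast_cpow]

lemma tw_one (τ : ℝ) : tw τ 1 = 1 := by
  unfold tw
  simp

lemma tw_norm (τ : ℝ) (n : ℕ) : ‖tw τ n‖ ≤ 1 := by
  unfold tw
  rcases Nat.eq_zero_or_pos n with rfl | hn
  · rw [Nat.cast_zero]
    by_cases h : -((τ : ℂ) * I) = 0
    · rw [h, Complex.cpow_zero, norm_one]
    · rw [Complex.zero_cpow h, norm_zero]
      exact zero_le_one
  · rw [Complex.norm_natCast_cpow_of_pos hn]
    simp

lemma term_tw (b : ℕ → ℂ) (τ : ℝ) (s : ℂ) (n : ℕ) :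
    LSeries.term (fun n => b n * tw τ n) s n = LSeries.term b (s + τ * I) n := by
  rcases Nat.eq_zero_or_pos n with rfl | hn
  · simp
  · have hn0 : (n : ℂ) ≠ 0 := by exact_mod_cast hn.ne'
    rw [LSeries.term_of_ne_zero hn.ne', LSeries.term_of_ne_zero hn.ne', tw, Complex.cpow_neg,
      Complex.cpow_add _ _ hn0]
    have h1 : (n : ℂ) ^ s ≠ 0 := by
      rw [Ne, Complex.cpow_eq_zero_iff]
      exact fun h => hn0 h.1
    have h2 : (n : ℂ) ^ ((τ : ℂ) * I) ≠ 0 := by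
      rw [Ne, Complex.cpow_eq_zero_iff]
      exact fun h => hn0 h.1
    field_simp

lemma lser_tw' (b : ℕ → ℂ) (τ : ℝ) (s : ℂ) : LSeries (fun n => b n * tw τ n) s = LSeries b (s + τ * I) := by
  unfold LSeries
  exact tsum_congr fun n => term_tw b τ s n

lemma conv_tw {b c : ℕ → ℂ} (h : Conv b c) (τ : ℝ) :
    Conv (fun n => b n * tw τ n) (fun n => c n * tw τ n) := by
  intro n hn
  have h1 := h n hn
  have h2 : ∀ d ∈ n.divisors, ((ArithmeticFunction.vonMangoldt d : ℝ) : ℂ) * (c d * tw τ d) *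
      (b (n / d) * tw τ (n / d)) =
      (((ArithmeticFunction.vonMangoldt d : ℝ) : ℂ) * c d * b (n / d)) * tw τ n := by
    intro d hd
    have hdn : d * (n / d) = n := Nat.mul_div_cancel' (Nat.dvd_of_mem_divisors hd)
    have h3 := tw_mul τ d (n / d)
    rw [hdn] at h3
    rw [h3]
    ring
  show b n * tw τ n * ((Real.log n : ℝ) : ℂ) = _
  rw [Finset.sum_congr rfl h2, ← Finset.sum_mul, ← h1]
  ring

/-- the vertical shift of an L-function without poles -/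
theorem vshift {θ : ℝ} {m : ℕ} {N : ℝ} {a : Fin m → ℂ} {b c : ℕ → ℂ} {X : ℂ → ℂ}
    (h : RawT θ m 0 N a b c X) (τ : ℝ) :
    RawT θ m 0 N (fun j => a j + τ * I) (fun n => b n * tw τ n) (fun n => c n * tw τ n)
      (fun s => (N : ℂ) ^ (-((τ : ℂ) * I / 2)) * X (s + τ * I)) := by
  have hN0 : 0 < N := by linarith [h.hN]
  have hNc : (N : ℂ) ≠ 0 := by exact_mod_cast hN0.ne'
  have hu : ‖(N : ℂ) ^ (-((τ : ℂ) * I / 2))‖ = 1 := by
    rw [Complex.norm_cpow_eq_rpow_re_of_pos hN0]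
    simp
  refine ⟨h.hm, h.hr, h.hN, h.hθ, h.hθ1, fun j => ?_, ?_, ?_, ?_, ?_, fun n => ?_, conv_tw h.conv τ, ?_⟩
  · have := h.re_ge j
    simpa using this
  · exact (h.entire.comp (differentiable_id.add_const _)).const_mul _
  · obtain ⟨A, ρ, hA⟩ := h.order
    refine ⟨|A| * (1 + |τ|) ^ |ρ|, |ρ|, fun s => ?_⟩
    rw [norm_mul, hu, one_mul]
    refine (hA _).trans (Real.exp_le_exp.2 ?_)
    have h1 : (1 : ℝ) ≤ 1 + ‖s + τ * I‖ := by linarith [norm_nonneg (s + τ * I)]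
    have h2 : (1 + ‖s + τ * I‖) ^ ρ ≤ (1 + ‖s + τ * I‖) ^ |ρ| :=
      Real.rpow_le_rpow_of_exponent_le h1 (le_abs_self ρ)
    have h3 : 1 + ‖s + τ * I‖ ≤ (1 + |τ|) * (1 + ‖s‖) := by
      have h4 : ‖s + τ * I‖ ≤ ‖s‖ + |τ| := by
        refine (norm_add_le _ _).trans ?_
        rw [norm_mul, Complex.norm_I, mul_one, Complex.norm_real, Real.norm_eq_abs]
      have := norm_nonneg s
      have := abs_nonneg τ
      nlinarith
    have h5 : (1 + ‖s + τ * I‖) ^ |ρ| ≤ ((1 + |τ|) * (1 + ‖s‖)) ^ |ρ| :=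
      Real.rpow_le_rpow (by linarith) h3 (abs_nonneg ρ)
    rw [Real.mul_rpow (by positivity) (by positivity)] at h5
    have h6 : 0 ≤ (1 + ‖s + τ * I‖) ^ ρ := Real.rpow_nonneg (by linarith) _
    calc A * (1 + ‖s + τ * I‖) ^ ρ ≤ |A| * (1 + ‖s + τ * I‖) ^ ρ :=
          mul_le_mul_of_nonneg_right (le_abs_self A) h6
      _ ≤ |A| * ((1 + |τ|) ^ |ρ| * (1 + ‖s‖) ^ |ρ|) :=
          mul_le_mul_of_nonneg_left (h2.trans h5) (abs_nonneg A)
      _ = |A| * (1 + |τ|) ^ |ρ| * (1 + ‖s‖) ^ |ρ| := by ring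
  · obtain ⟨ε, hε, hfe⟩ := h.fe
    set u : ℂ := (N : ℂ) ^ (-((τ : ℂ) * I / 2)) with hudef
    have hu0 : u ≠ 0 := by
      rw [← norm_pos_iff, hu]
      norm_num
    have hcu : (starRingEnd ℂ) u ≠ 0 := by simpa using hu0
    refine ⟨ε * u / (starRingEnd ℂ) u, ?_, fun s => ?_⟩
    · rw [norm_div, norm_mul, hε, hu, RCLike.norm_conj, hu]
      norm_num
    · have h1 : 1 - (starRingEnd ℂ) (s + τ * I) = 1 - (starRingEnd ℂ) s + τ * I := by
        rw [map_add, map_mul, Complex.conj_I, Complex.conj_ofReal]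
        ring
      rw [hfe (s + τ * I), h1, map_mul]
      field_simp
  · show b 1 * tw τ 1 = 1
    rw [h.one, tw_one, one_mul]
  · show ‖c n * tw τ n‖ ≤ _
    rw [norm_mul]
    calc ‖c n‖ * ‖tw τ n‖ ≤ ‖c n‖ * 1 := mul_le_mul_of_nonneg_left (tw_norm τ n) (norm_nonneg _)
      _ = ‖c n‖ := mul_one _
      _ ≤ _ := h.cb n
  · obtain ⟨σ, hσ⟩ := h.eq
    refine ⟨σ, fun s hs => ?_⟩
    have h1 : σ ≤ (s + τ * I).re := by simpa using hs
    rw [hσ _ h1, lser_tw', pow_zero, pow_zero]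
    have h2 : (N : ℂ) ^ ((s + τ * I) / 2) = (N : ℂ) ^ (s / 2) * (N : ℂ) ^ ((τ : ℂ) * I / 2) := by
      rw [← Complex.cpow_add _ _ hNc]
      congr 1
      ring
    have h3 : (N : ℂ) ^ ((τ : ℂ) * I / 2) ≠ 0 := by
      rw [Ne, Complex.cpow_eq_zero_iff]
      exact fun h => hNc h.1
    have h4 : ∀ j, Gammaℝ (s + τ * I + a j) = Gammaℝ (s + (a j + τ * I)) := fun j => by
      congr 1
      ring
    rw [h2, Complex.cpow_neg, Finset.prod_congr rfl fun j _ => h4 j]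
    field_simp

section
variable {N : ℕ} [NeZero N] {χ : DirichletCharacter ℂ N}

/-- the shifted completed L-function -/
noncomputable def LamS (χ : DirichletCharacter ℂ N) (τ : ℝ) (s : ℂ) : ℂ :=
  (((N : ℝ)) : ℂ) ^ (-((τ : ℂ) * I / 2)) * Lam χ (s + τ * I)

lemma unit_ne (τ : ℝ) : (((N : ℝ)) : ℂ) ^ (-((τ : ℂ) * I / 2)) ≠ 0 := by
  have hN0 : (((N : ℝ)) : ℂ) ≠ 0 := by exact_mod_cast NeZero.ne N
  rw [Ne, Complex.cpow_eq_zero_iff]
  exact fun h => hN0 h.1

lemma LamS_diff (hχ : χ.IsPrimitive) (τ : ℝ) : Differentiable ℂ (LamS χ τ) :=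
  ((Lam_diff hχ).comp (differentiable_id.add_const _)).const_mul _

lemma LamS_ne (hχ : χ.IsPrimitive) (τ : ℝ) {s : ℂ} (hs : 1 ≤ s.re) : LamS χ τ s ≠ 0 :=
  mul_ne_zero (unit_ne τ) (Lam_ne hχ (by simpa using hs))

lemma LamS_zero (τ : ℝ) {s : ℂ} : LamS χ τ s = 0 ↔ Lam χ (s + τ * I) = 0 := by
  unfold LamS
  rw [mul_eq_zero, or_iff_right (unit_ne τ)]

/-- one character with a shift -/
theorem one_rawS (hχ : χ.IsPrimitive) (τ : ℝ) (hτ : N = 1 → τ = 0) : ∃ (b c : ℕ → ℂ) (X : ℂ → ℂ),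
    RawTL 0 [(parD χ : ℂ) + τ * I] (if N = 1 then 1 else 0) (N : ℝ) b c X ∧ ∃ σ : ℝ, ∀ s : ℂ, σ ≤ s.re →
      X s = LamS χ τ s ∧ LSeries b s = χ.LFunction (s + τ * I) := by
  obtain ⟨b, c, X, hr, σ, hσ⟩ := one_raw hχ
  by_cases hN : N = 1
  · have h0 := hτ hN
    subst h0
    refine ⟨b, c, X, ?_, σ, fun s hs => ?_⟩
    · have e : (parD χ : ℂ) + ((0 : ℝ) : ℂ) * I = (parD χ : ℂ) := by simp
      rw [e]
      exact hr
    · obtain ⟨h1, h2⟩ := hσ s hs
      unfold LamS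
      have e : s + ((0 : ℝ) : ℂ) * I = s := by simp
      rw [e, ← h1]
      refine ⟨by simp, h2⟩
  · rw [if_neg hN] at hr ⊢
    have h1 := vshift (show RawT 0 1 0 (N : ℝ) (fun j => ([(parD χ : ℂ)] : List ℂ).get j) b c X from hr) τ
    refine ⟨fun n => b n * tw τ n, fun n => c n * tw τ n,
      fun s => (((N : ℝ)) : ℂ) ^ (-((τ : ℂ) * I / 2)) * X (s + τ * I), ?_, σ, fun s hs => ⟨?_, ?_⟩⟩
    rotate_left
    · have h2 : σ ≤ (s + τ * I).re := by simpa using hs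
      show (((N : ℝ)) : ℂ) ^ (-((τ : ℂ) * I / 2)) * X (s + τ * I) = LamS χ τ s
      rw [(hσ _ h2).1]
      rfl
    · have h2 : σ ≤ (s + τ * I).re := by simpa using hs
      show LSeries (fun n => b n * tw τ n) s = _
      rw [lser_tw', (hσ _ h2).2]
    · have e : (fun j : Fin 1 => ([(parD χ : ℂ)] : List ℂ).get j + τ * I) =
          fun j : Fin 1 => ([(parD χ : ℂ) + τ * I] : List ℂ).get j := by
        funext j
        fin_cases j
        rfl
      show RawT 0 1 0 (N : ℝ) (fun j : Fin 1 => ([(parD χ : ℂ) + τ * I] : List ℂ).get j) _ _ _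
      rw [← e]
      exact h1

end

/-- finite families of primitive characters with shifts -/
theorem famS {ι : Type} [Fintype ι] [Nonempty ι] (q : ι → ℕ) [∀ i, NeZero (q i)]
    (χ : ∀ i, DirichletCharacter ℂ (q i)) (hχ : ∀ i, (χ i).IsPrimitive) (τ : ι → ℝ)
    (hτ : ∀ i, q i = 1 → τ i = 0) :
    BaezDuarte (fun s => ∏ i, LamS (χ i) (τ i) s) (fun s => ∏ i, (χ i).LFunction (s + τ i * I)) (1 / 2) := by
  have hl : (Finset.univ : Finset ι).toList ≠ [] := by
    intro h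
    obtain ⟨i⟩ := ‹Nonempty ι›
    have h1 : i ∈ (Finset.univ : Finset ι).toList := Finset.mem_toList.2 (Finset.mem_univ _)
    rw [h] at h1
    exact List.not_mem_nil h1
  obtain ⟨θ', b, c, X, hr, σ, hσ⟩ := list_mul _ _ _ _ _ _ (fun i => one_rawS (hχ i) (τ i) (hτ i))
    (Finset.univ : Finset ι).toList hl
  simp only [Finset.prod_map_toList, Finset.sum_map_toList] at hr hσ
  have hΛ : Differentiable ℂ fun s => ∏ i, LamS (χ i) (τ i) s :=
    Differentiable.fun_finsetProd fun i _ => LamS_diff (hχ i) (τ i)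
  have hX : ∀ s : ℂ, X s = ∏ i, LamS (χ i) (τ i) s := by
    have h1 : AnalyticOnNhd ℂ X Set.univ := fun z _ => hr.entire.analyticAt z
    have h2 : AnalyticOnNhd ℂ (fun s : ℂ => ∏ i, LamS (χ i) (τ i) s) Set.univ := fun z _ => hΛ.analyticAt z
    have h3 : X =ᶠ[𝓝 (((σ + 1 : ℝ)) : ℂ)] fun s : ℂ => ∏ i, LamS (χ i) (τ i) s := by
      have hmem : {s : ℂ | σ < s.re} ∈ 𝓝 ((σ + 1 : ℝ) : ℂ) := by
        refine (isOpen_lt continuous_const Complex.continuous_re).mem_nhds ?_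
        show σ < ((σ + 1 : ℝ) : ℂ).re
        rw [Complex.ofReal_re]
        linarith
      filter_upwards [hmem] with z hz
      exact (hσ z (le_of_lt hz)).1
    intro s
    exact h1.eqOn_of_preconnected_of_eventuallyEq h2 isPreconnected_univ (Set.mem_univ _) h3 (Set.mem_univ s)
  have e1 : (1 / 2 : ℝ) = 1 / 2 + 0 := by norm_num
  rw [e1]
  refine bd_fin lamS hr (fun j => ?_) (fun _ => ?_) one_ne_zero (fun s => ?_) ?_ ⟨σ, fun s hs => ?_⟩
  · have h1 : ∀ x ∈ (Finset.univ : Finset ι).toList.flatMap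
        (fun i => [(parD (χ i) : ℂ) + τ i * I]), -1 / 2 < x.re := by
      intro x hx
      obtain ⟨i, _, hi⟩ := List.mem_flatMap.1 hx
      rw [List.mem_singleton] at hi
      rw [hi]
      unfold parD
      split_ifs <;> norm_num
    exact h1 _ (List.get_mem _ j)
  · rw [hX, Finset.prod_ne_zero_iff]
    exact fun i _ => LamS_ne (hχ i) (τ i) (by simp)
  · rw [hX, one_mul, Complex.ofReal_zero, add_zero]
  · intro s hs
    simp only [Set.mem_compl_iff, Set.mem_insert_iff, Set.mem_singleton_iff, not_or] at hs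
    refine DifferentiableAt.differentiableWithinAt ?_
    refine DifferentiableAt.fun_finsetProd fun i _ => ?_
    have h1 : DifferentiableAt ℂ (χ i).LFunction (s + ((0 : ℝ) : ℂ) + τ i * I) := by
      by_cases hq : q i = 1
      · rw [hτ i hq]
        exact DirichletCharacter.differentiableAt_LFunction _ _ (Or.inl (by simpa using hs.2))
      · exact DirichletCharacter.differentiableAt_LFunction _ _ (Or.inr (ne_one (hχ i) hq))
    exact h1.comp s ((differentiableAt_id.add_const _).add_const _)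
  · rw [Complex.ofReal_zero, add_zero, (hσ s hs).2]

end Pool.Agent.N967.D
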