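import Mathlib
import Pool.Agent.N967.D.Sh
import Pool.Agent.N967.G.Fin

set_option autoImplicit false

/-!
# Baez-Duarte's distance for finite products of shifted Dirichlet L-functions, in terms of the zeros
-/

namespace Pool.Agent.N967.D

open Complex MeasureTheory Filter Topology
open Pool.Agent.N967.G (BaezDuarte dist2 integrand OnLine Zero norm2 norm2_half)

section
variable {ι : Type} [Fintype ι] {q : ι → ℕ} [∀ i, NeZero (q i)] (χ : ∀ i, DirichletCharacter ℂ (q i)) (τ : ι → ℝ)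

/-- the zeros in the critical strip of the functions `L(s + iτ_j, χ_j)` -/
def Zeros : Set ℂ := {s : ℂ | (0 < s.re ∧ s.re < 1) ∧ ∃ i, (χ i).LFunction (s + τ i * I) = 0}

/-- the total multiplicity of a zero -/
noncomputable def mult (s : ℂ) : ℕ := ∑ i, analyticOrderNatAt (χ i).LFunction (s + τ i * I)

/-- the Riemann hypothesis for all members of the family -/
def GRH : Prop := ∀ s ∈ Zeros χ τ, s.re = 1 / 2

/-- the product of the functions `L(s + iτ_j, χ_j*)`, where `χ_j*` is the primitive character inducing `χ_j` -/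
noncomputable def Lf (s : ℂ) : ℂ := ∏ i, (χ i).primitiveCharacter.LFunction (s + τ i * I)

/-- `d_M² log M` -/
noncomputable def sc (M : ℕ) : ENNReal := dist2 (Lf χ τ) (1 / 2) M * ENNReal.ofReal (Real.log M)

/-- `2 Re (Λ'/Λ)(1 + iτ, χ)` -/
noncomputable def cS {N : ℕ} [NeZero N] (χ : DirichletCharacter ℂ N) (τ : ℝ) : ℝ :=
  2 * (logDeriv (Lam χ) (1 + τ * I)).re

/-- the constant -/
noncomputable def Ct : ℝ := ∑ i, cS (χ i).primitiveCharacter (τ i)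

/-- the theorem for a family -/
structure Asy : Prop where
  integrable : GRH χ τ → ∀ (M : ℕ) (a : ℕ → ℂ), Integrable (integrand (Lf χ τ) (1 / 2) M a)
  summable : GRH χ τ → Summable fun ρ : Zeros χ τ => (mult χ τ (ρ : ℂ) : ℝ) ^ 2 / ‖(ρ : ℂ)‖ ^ 2
  asymptotic : GRH χ τ → Tendsto (sc χ τ) atTop
    (𝓝 (ENNReal.ofReal (∑' ρ : Zeros χ τ, (mult χ τ (ρ : ℂ) : ℝ) ^ 2 / ‖(ρ : ℂ)‖ ^ 2)))
  bounded_below : ¬ GRH χ τ → ∃ δ : ℝ, 0 < δ ∧ ∀ M : ℕ, ENNReal.ofReal δ ≤ dist2 (Lf χ τ) (1 / 2) M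
  iff_limit : GRH χ τ ↔ ∃ ℓ : ENNReal, ℓ ≠ ⊤ ∧ Tendsto (sc χ τ) atTop (𝓝 ℓ)
  first_moment : GRH χ τ → HasSum (fun ρ : Zeros χ τ => (mult χ τ (ρ : ℂ) : ℝ) / ‖(ρ : ℂ)‖ ^ 2) (Ct χ τ)
  iff_simple : (GRH χ τ ∧ ∀ s ∈ Zeros χ τ, mult χ τ s = 1) ↔ Tendsto (sc χ τ) atTop (𝓝 (ENNReal.ofReal (Ct χ τ)))

/-- the completed function of the family -/
noncomputable def LamF (s : ℂ) : ℂ := ∏ i, LamS (χ i).primitiveCharacter (τ i) s

omit [Fintype ι] [∀ i, NeZero (q i)] in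
lemma prim (i : ι) : (χ i).primitiveCharacter.IsPrimitive := DirichletCharacter.primitiveCharacter_isPrimitive _

lemma re_shift (s : ℂ) (t : ℝ) : (s + t * I).re = s.re := by simp

lemma zero_iff (s : ℂ) : LamF χ τ s = 0 ↔ s ∈ Zeros χ τ := by
  unfold LamF Zeros
  rw [Finset.prod_eq_zero_iff]
  constructor
  · rintro ⟨i, -, hi⟩
    obtain ⟨h1, h2⟩ := (zero_lam (χ i)).1 ((LamS_zero _).1 hi)
    rw [re_shift] at h1
    exact ⟨h1, i, h2⟩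
  · rintro ⟨h1, i, h2⟩
    refine ⟨i, Finset.mem_univ _, (LamS_zero _).2 ((zero_lam (χ i)).2 ⟨?_, h2⟩)⟩
    rwa [re_shift]

lemma online_iff : OnLine (LamF χ τ) (1 / 2) ↔ GRH χ τ := by
  constructor
  · intro h s hs
    exact h s ((zero_iff χ τ s).2 hs)
  · intro h s hs
    exact h s ((zero_iff χ τ s).1 hs)

lemma LamS_ord {N : ℕ} [NeZero N] {χ : DirichletCharacter ℂ N} (hχ : χ.IsPrimitive) (τ : ℝ) (s : ℂ) :
    analyticOrderAt (LamS χ τ) s = analyticOrderAt (Lam χ) (s + τ * I) := by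
  have h1 : AnalyticAt ℂ (fun z : ℂ => z + τ * I) s := by fun_prop
  have hd : deriv (fun z : ℂ => z + τ * I) s ≠ 0 := by simp
  have h2 := analyticOrderAt_comp_of_deriv_ne_zero (f := Lam χ) h1 hd
  have h3 : AnalyticAt ℂ (Lam χ ∘ fun z : ℂ => z + τ * I) s := (Lam_an hχ _).comp h1
  rw [← h2]
  exact order_unit (E := fun _ => (((N : ℝ)) : ℂ) ^ (-((τ : ℂ) * I / 2))) analyticAt_const (unit_ne τ) h3
    (Filter.Eventually.of_forall fun z => rfl)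

lemma mult_eq {s : ℂ} (h0 : 0 < s.re) (h1 : s.re < 1) : analyticOrderNatAt (LamF χ τ) s = mult χ τ s := by
  have h := orderNat_prod Finset.univ (fun i => LamS (χ i).primitiveCharacter (τ i)) (a := s)
    (fun i _ => (LamS_diff (prim χ i) (τ i)).analyticAt s)
    (fun i _ => by rw [LamS_ord (prim χ i)]; exact Lam_ord_ne (prim χ i) _)
  have e : LamF χ τ = fun z => ∏ i, LamS (χ i).primitiveCharacter (τ i) z := rfl
  rw [e, h]
  unfold mult analyticOrderNatAt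
  exact Finset.sum_congr rfl fun i _ => by
    rw [LamS_ord (prim χ i), ord_lam (χ i) (by rwa [re_shift]) (by rwa [re_shift])]

lemma ct_eq : 2 * (logDeriv (LamF χ τ) (((1 / 2 : ℝ) : ℂ) + 1 / 2)).re = Ct χ τ := by
  have e : (((1 / 2 : ℝ) : ℂ) + 1 / 2) = 1 := by
    push_cast
    norm_num
  rw [e]
  have h : logDeriv (LamF χ τ) 1 = ∑ i, logDeriv (LamS (χ i).primitiveCharacter (τ i)) 1 :=
    logDeriv_prod (f := fun i => LamS (χ i).primitiveCharacter (τ i))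
      (fun i _ => LamS_ne (prim χ i) (τ i) (by simp)) (fun i _ => (LamS_diff (prim χ i) (τ i)) 1)
  rw [h, Complex.re_sum, Finset.mul_sum]
  unfold Ct cS
  refine Finset.sum_congr rfl fun i _ => ?_
  have h2 : logDeriv (LamS (χ i).primitiveCharacter (τ i)) 1 =
      logDeriv (fun s => Lam (χ i).primitiveCharacter (s + τ i * I)) 1 := logDeriv_const_mul _ _ (unit_ne (τ i))
  rw [h2, logDeriv_apply, logDeriv_apply, deriv_comp_add_const]

/-- the zeros -/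
noncomputable def ez : Zero (LamF χ τ) ≃ Zeros χ τ := Equiv.subtypeEquivRight (zero_iff χ τ)

theorem asy [Nonempty ι] (hτ : ∀ i, (χ i).conductor = 1 → τ i = 0) : Asy χ τ := by
  have hbd : BaezDuarte (LamF χ τ) (Lf χ τ) (1 / 2) :=
    famS (fun i => (χ i).conductor) (fun i => (χ i).primitiveCharacter) (prim χ) τ hτ
  have hon := online_iff χ τ
  have hct := ct_eq χ τ
  have hm : ∀ ρ : Zero (LamF χ τ), Pool.Agent.N967.G.mult (LamF χ τ) ρ = mult χ τ ((ez χ τ ρ : Zeros χ τ) : ℂ) := by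
    intro ρ
    have h1 := (zero_iff χ τ _).1 ρ.2
    exact mult_eq χ τ h1.1.1 h1.1.2
  have hn : ∀ ρ : Zero (LamF χ τ), norm2 (LamF χ τ) (1 / 2) ρ = ‖((ez χ τ ρ : Zeros χ τ) : ℂ)‖ ^ 2 := by
    intro ρ
    rw [norm2_half]
    rfl
  have e2 : (fun ρ : Zero (LamF χ τ) => (Pool.Agent.N967.G.mult (LamF χ τ) ρ : ℝ) ^ 2 / norm2 (LamF χ τ) (1 / 2) ρ) =
      (fun ρ : Zeros χ τ => (mult χ τ (ρ : ℂ) : ℝ) ^ 2 / ‖(ρ : ℂ)‖ ^ 2) ∘ ez χ τ := by
    funext ρ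
    rw [Function.comp_apply, hm, hn]
  have e1 : (fun ρ : Zero (LamF χ τ) => (Pool.Agent.N967.G.mult (LamF χ τ) ρ : ℝ) / norm2 (LamF χ τ) (1 / 2) ρ) =
      (fun ρ : Zeros χ τ => (mult χ τ (ρ : ℂ) : ℝ) / ‖(ρ : ℂ)‖ ^ 2) ∘ ez χ τ := by
    funext ρ
    rw [Function.comp_apply, hm, hn]
  obtain ⟨b1, b2, b3, b4, b5, b6, b7⟩ := hbd
  rw [e2] at b2 b3
  rw [e1, hct] at b6
  rw [hct] at b7
  rw [(ez χ τ).summable_iff] at b2
  have e3 : tsum ((fun ρ : Zeros χ τ => (mult χ τ (ρ : ℂ) : ℝ) ^ 2 / ‖(ρ : ℂ)‖ ^ 2) ∘ ez χ τ) =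
      ∑' ρ : Zeros χ τ, (mult χ τ (ρ : ℂ) : ℝ) ^ 2 / ‖(ρ : ℂ)‖ ^ 2 :=
    (ez χ τ).tsum_eq (fun ρ : Zeros χ τ => (mult χ τ (ρ : ℂ) : ℝ) ^ 2 / ‖(ρ : ℂ)‖ ^ 2)
  rw [e3] at b3
  rw [(ez χ τ).hasSum_iff] at b6
  refine ⟨fun h => b1 (hon.2 h), fun h => b2 (hon.2 h), fun h => b3 (hon.2 h), fun h => b4 fun h2 => h (hon.1 h2),
    hon.symm.trans b5, fun h => b6 (hon.2 h), Iff.trans ?_ b7⟩
  rw [hon]
  refine and_congr_right fun _ => ?_
  constructor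
  · intro h ρ
    rw [hm]
    exact h _ (ez χ τ ρ).2
  · intro h s hs
    have h1 := h ((ez χ τ).symm ⟨s, hs⟩)
    rw [hm, Equiv.apply_symm_apply] at h1
    exact h1

/-! ### the limits add up if and only if there are no common zeros -/

/-- the order of one member -/
noncomputable def od (i : ι) (s : ℂ) : ℕ := analyticOrderNatAt (χ i).LFunction (s + τ i * I)

omit [Fintype ι] in
lemma od_pos {i : ι} {s : ℂ} (h : (0 < s.re ∧ s.re < 1) ∧ (χ i).LFunction (s + τ i * I) = 0) : 1 ≤ od χ τ i s := by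
  have h1 : (0 < (s + τ i * I).re ∧ (s + τ i * I).re < 1) := by
    rw [re_shift]
    exact h.1
  have hs1 : s + τ i * I ≠ 1 := by
    intro h2
    rw [h2] at h1
    simp at h1
  rw [Nat.one_le_iff_ne_zero]
  intro h0
  have h2 : analyticOrderAt (χ i).LFunction (s + τ i * I) ≠ 0 := (L_an hs1).analyticOrderAt_ne_zero.2 h.2
  apply h2
  have h4 := Nat.cast_analyticOrderNatAt (ord_ne (χ i) h1.1 h1.2)
  have h5 : analyticOrderNatAt (χ i).LFunction (s + τ i * I) = 0 := h0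
  rw [← h4, h5]
  rfl

omit [Fintype ι] in
lemma od_zero {i : ι} {s : ℂ} (h : (χ i).LFunction (s + τ i * I) ≠ 0) : od χ τ i s = 0 := by
  by_contra hcon
  exact h (apply_eq_zero_of_analyticOrderNatAt_ne_zero hcon)

lemma sum_sq_le (o : ι → ℕ) : ∑ i, (o i : ℝ) ^ 2 ≤ (∑ i, (o i : ℝ)) ^ 2 := by
  rw [sq (∑ i, (o i : ℝ)), Finset.sum_mul]
  refine Finset.sum_le_sum fun i _ => ?_
  rw [sq]
  exact mul_le_mul_of_nonneg_left
    (Finset.single_le_sum (f := fun i => (o i : ℝ)) (fun i _ => Nat.cast_nonneg _) (Finset.mem_univ i))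
    (Nat.cast_nonneg _)

lemma sum_sq_lt (o : ι → ℕ) {i j : ι} (hij : i ≠ j) (hi : 1 ≤ o i) (hj : 1 ≤ o j) :
    ∑ i, (o i : ℝ) ^ 2 < (∑ i, (o i : ℝ)) ^ 2 := by
  classical
  rw [sq (∑ i, (o i : ℝ)), Finset.sum_mul]
  refine Finset.sum_lt_sum (fun i _ => ?_) ⟨i, Finset.mem_univ i, ?_⟩
  · rw [sq]
    exact mul_le_mul_of_nonneg_left
      (Finset.single_le_sum (f := fun i => (o i : ℝ)) (fun i _ => Nat.cast_nonneg _) (Finset.mem_univ i))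
      (Nat.cast_nonneg _)
  · rw [sq]
    have h1 : (o i : ℝ) + (o j : ℝ) ≤ ∑ i, (o i : ℝ) := by
      have h2 : ∑ k ∈ ({i, j} : Finset ι), (o k : ℝ) ≤ ∑ k, (o k : ℝ) :=
        Finset.sum_le_sum_of_subset_of_nonneg (Finset.subset_univ _) fun k _ _ => Nat.cast_nonneg _
      rwa [Finset.sum_pair hij] at h2
    have h3 : (1 : ℝ) ≤ o i := by exact_mod_cast hi
    have h4 : (1 : ℝ) ≤ o j := by exact_mod_cast hj
    exact mul_lt_mul_of_pos_left (by linarith) (by linarith)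

lemma sum_sq_eq (o : ι → ℕ) (h : ∀ i j, i ≠ j → o i ≠ 0 → o j = 0) :
    ∑ i, (o i : ℝ) ^ 2 = (∑ i, (o i : ℝ)) ^ 2 := by
  rw [sq (∑ i, (o i : ℝ)), Finset.sum_mul]
  refine Finset.sum_congr rfl fun i _ => ?_
  by_cases hi : o i = 0
  · rw [hi]
    simp
  · rw [sq]
    congr 1
    symm
    refine Finset.sum_eq_single i (fun j _ hj => ?_) (fun h => absurd (Finset.mem_univ i) h)
    rw [h i j (Ne.symm hj) hi, Nat.cast_zero]

/-- the family with one member -/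
abbrev sch (i : ι) : ∀ _ : Unit, DirichletCharacter ℂ (q i) := fun _ => χ i

/-- the family with one member: the shift -/
abbrev sta (i : ι) : Unit → ℝ := fun _ => τ i

omit [Fintype ι] in
lemma single_zeros (i : ι) (s : ℂ) :
    s ∈ Zeros (sch χ i) (sta τ i) ↔ (0 < s.re ∧ s.re < 1) ∧ (χ i).LFunction (s + τ i * I) = 0 := by
  unfold Zeros
  constructor
  · rintro ⟨h1, ⟨⟩, h2⟩
    exact ⟨h1, h2⟩
  · rintro ⟨h1, h2⟩
    exact ⟨h1, (), h2⟩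

omit [Fintype ι] in
lemma single_mult (i : ι) (s : ℂ) : mult (sch χ i) (sta τ i) s = od χ τ i s := by
  unfold mult od
  simp

omit [Fintype ι] in
/-- the sum over the zeros of one member -/
lemma single_tsum (i : ι) : ∑' ρ : Zeros (sch χ i) (sta τ i),
      (mult (sch χ i) (sta τ i) (ρ : ℂ) : ℝ) ^ 2 / ‖(ρ : ℂ)‖ ^ 2 =
    ∑' ρ : Zeros χ τ, (od χ τ i (ρ : ℂ) : ℝ) ^ 2 / ‖(ρ : ℂ)‖ ^ 2 := by
  have h1 := tsum_subtype (Zeros (sch χ i) (sta τ i)) fun s : ℂ => (od χ τ i s : ℝ) ^ 2 / ‖s‖ ^ 2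
  have h2 := tsum_subtype (Zeros χ τ) fun s : ℂ => (od χ τ i s : ℝ) ^ 2 / ‖s‖ ^ 2
  have h3 : (fun ρ : Zeros (sch χ i) (sta τ i) =>
      (mult (sch χ i) (sta τ i) (ρ : ℂ) : ℝ) ^ 2 / ‖(ρ : ℂ)‖ ^ 2) =
      fun ρ : Zeros (sch χ i) (sta τ i) => (od χ τ i (ρ : ℂ) : ℝ) ^ 2 / ‖(ρ : ℂ)‖ ^ 2 := by
    funext ρ
    rw [single_mult]
  rw [h3, h1, h2]
  congr 1
  funext s
  classical
  by_cases hs : s ∈ Zeros (sch χ i) (sta τ i)
  · have hs' := (single_zeros χ τ i s).1 hs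
    have hs2 : s ∈ Zeros χ τ := ⟨hs'.1, i, hs'.2⟩
    rw [Set.indicator_of_mem hs, Set.indicator_of_mem hs2]
  · rw [Set.indicator_of_notMem hs]
    by_cases hs2 : s ∈ Zeros χ τ
    · rw [Set.indicator_of_mem hs2]
      have h4 : (χ i).LFunction (s + τ i * I) ≠ 0 := fun h => hs ((single_zeros χ τ i s).2 ⟨hs2.1, h⟩)
      rw [od_zero χ τ h4]
      simp
    · rw [Set.indicator_of_notMem hs2]

/-- no common zeros -/
def NoCommon : Prop := ∀ i j, i ≠ j → ∀ s : ℂ, 0 < s.re → s.re < 1 →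
  (χ i).LFunction (s + τ i * I) = 0 → (χ j).LFunction (s + τ j * I) ≠ 0

theorem add [Nonempty ι] (hτ : ∀ i, (χ i).conductor = 1 → τ i = 0) (hG : GRH χ τ) : ∃ (v : ℝ) (w : ι → ℝ),
    Tendsto (sc χ τ) atTop (𝓝 (ENNReal.ofReal v)) ∧
    (∀ i, 0 ≤ w i ∧ Tendsto (sc (sch χ i) (sta τ i)) atTop (𝓝 (ENNReal.ofReal (w i)))) ∧
    ∑ i, w i ≤ v ∧ (∑ i, w i = v ↔ NoCommon χ τ) := by
  have hA := asy χ τ hτ
  have hGi : ∀ i, GRH (sch χ i) (sta τ i) := by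
    intro i s hs
    have h1 := (single_zeros χ τ i s).1 hs
    exact hG s ⟨h1.1, i, h1.2⟩
  have hAi : ∀ i, Asy (sch χ i) (sta τ i) := fun i => asy _ _ fun _ h => hτ i h
  have hmult : ∀ s : ℂ, (mult χ τ s : ℝ) = ∑ i, (od χ τ i s : ℝ) := by
    intro s
    unfold mult od
    push_cast
    rfl
  have hS := hA.summable hG
  have hSi : ∀ i, Summable fun ρ : Zeros χ τ => (od χ τ i (ρ : ℂ) : ℝ) ^ 2 / ‖(ρ : ℂ)‖ ^ 2 := by
    intro i
    refine Summable.of_nonneg_of_le (fun ρ => by positivity) (fun ρ => ?_) hS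
    rw [hmult]
    gcongr
    exact Finset.single_le_sum (f := fun i => (od χ τ i (ρ : ℂ) : ℝ)) (fun i _ => Nat.cast_nonneg _) (Finset.mem_univ i)
  have hsum : ∑ i, ∑' ρ : Zeros χ τ, (od χ τ i (ρ : ℂ) : ℝ) ^ 2 / ‖(ρ : ℂ)‖ ^ 2 =
      ∑' ρ : Zeros χ τ, (∑ i, (od χ τ i (ρ : ℂ) : ℝ) ^ 2) / ‖(ρ : ℂ)‖ ^ 2 := by
    rw [← Summable.tsum_finsetSum fun i _ => hSi i]
    refine tsum_congr fun ρ => ?_
    rw [Finset.sum_div]
  have hSs : Summable fun ρ : Zeros χ τ => (∑ i, (od χ τ i (ρ : ℂ) : ℝ) ^ 2) / ‖(ρ : ℂ)‖ ^ 2 := by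
    refine (summable_sum (s := Finset.univ) fun i _ => hSi i).congr fun ρ => ?_
    rw [Finset.sum_div]
  have hterm : ∀ ρ : Zeros χ τ, (∑ i, (od χ τ i (ρ : ℂ) : ℝ) ^ 2) / ‖(ρ : ℂ)‖ ^ 2 ≤
      (mult χ τ (ρ : ℂ) : ℝ) ^ 2 / ‖(ρ : ℂ)‖ ^ 2 := by
    intro ρ
    rw [hmult]
    gcongr
    exact sum_sq_le _
  refine ⟨_, fun i => ∑' ρ : Zeros χ τ, (od χ τ i (ρ : ℂ) : ℝ) ^ 2 / ‖(ρ : ℂ)‖ ^ 2, hA.asymptotic hG, fun i => ⟨?_, ?_⟩,
    ?_, ?_⟩
  · exact tsum_nonneg fun ρ => by positivity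
  · show Tendsto (sc (sch χ i) (sta τ i)) atTop
      (𝓝 (ENNReal.ofReal (∑' ρ : Zeros χ τ, (od χ τ i (ρ : ℂ) : ℝ) ^ 2 / ‖(ρ : ℂ)‖ ^ 2)))
    rw [← single_tsum]
    exact (hAi i).asymptotic (hGi i)
  · rw [hsum]
    exact hSs.tsum_le_tsum hterm hS
  · rw [hsum]
    constructor
    · intro h i j hij s h0 h1 hi hj
      have hs : s ∈ Zeros χ τ := ⟨⟨h0, h1⟩, i, hi⟩
      have hlt : (∑ i, (od χ τ i s : ℝ) ^ 2) / ‖s‖ ^ 2 < (mult χ τ s : ℝ) ^ 2 / ‖s‖ ^ 2 := by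
        rw [hmult]
        have hs0 : s ≠ 0 := by
          rintro rfl
          simp at h0
        have h2 : 0 < ‖s‖ ^ 2 := by positivity
        refine div_lt_div_of_pos_right ?_ h2
        exact sum_sq_lt _ hij (od_pos χ τ ⟨⟨h0, h1⟩, hi⟩) (od_pos χ τ ⟨⟨h0, h1⟩, hj⟩)
      have h3 := Summable.tsum_lt_tsum (i := (⟨s, hs⟩ : Zeros χ τ)) hterm hlt hSs hS
      exact h3.ne h
    · intro h
      refine tsum_congr fun ρ => ?_
      rw [hmult]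
      congr 1
      refine sum_sq_eq _ fun i j hij hi => ?_
      have h1 : (χ i).LFunction ((ρ : ℂ) + τ i * I) = 0 := by
        by_contra hcon
        exact hi (od_zero χ τ hcon)
      exact od_zero χ τ (h i j hij _ ρ.2.1.1 ρ.2.1.2 h1)

end

end Pool.Agent.N967.D
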