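import Mathlib
import Pool.Agent.N967.D.Zer
import Pool.Agent.H370R2.Count
import Pool.Agent.H370R2.DirGood

set_option autoImplicit false

/-!
# Every Dirichlet L-function has nontrivial zeros with arbitrarily large ordinate
-/

namespace Pool.Agent.N967.D

open Complex

theorem inf_prim {q : ℕ} [NeZero q] (χ : DirichletCharacter ℂ q) (hχ : χ.IsPrimitive) (B : ℝ) :
    ∃ s : ℂ, 0 < s.re ∧ s.re < 1 ∧ B < s.im ∧ χ.LFunction s = 0 := by
  have hg : H370.GoodL χ.LFunction := H370.good_dirichlet χ hχ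
  obtain ⟨C, T0, hC, hT0, h⟩ := H370.nn_asymp hg
  have hev : ∃ U : ℝ, T0 ≤ U ∧ B ≤ U ∧ 2 * Real.pi * C < Real.log U := by
    refine ⟨max (max T0 B) (Real.exp (2 * Real.pi * C + 1)), ?_, ?_, ?_⟩
    · exact (le_max_left _ _).trans (le_max_left _ _)
    · exact (le_max_right _ _).trans (le_max_left _ _)
    · have h1 : Real.exp (2 * Real.pi * C + 1) ≤
          max (max T0 B) (Real.exp (2 * Real.pi * C + 1)) := le_max_right _ _
      have h2 := Real.log_le_log (Real.exp_pos _) h1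
      rw [Real.log_exp] at h2
      linarith
  obtain ⟨U, hU0, hUT, hUlog⟩ := hev
  have hUpos : 0 < U := by linarith
  have hb := h U hU0 U (2 * U) le_rfl (by linarith) (by linarith) le_rfl
  have hNN : 0 < (H370.NN χ.LFunction U (2 * U) : ℝ) := by
    have h1 := (abs_le.1 hb).1
    have h2 : C * U < U * Real.log U / (2 * Real.pi) := by
      rw [lt_div_iff₀ (by positivity)]
      nlinarith [Real.pi_pos]
    linarith
  have hne : (H370.zset χ.LFunction U (2 * U)).Nonempty := by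
    by_contra hcon
    rw [Set.not_nonempty_iff_eq_empty] at hcon
    unfold H370.NN at hNN
    rw [hcon] at hNN
    simp at hNN
  obtain ⟨s, hs0, hs1, hsT, hsT2, hs⟩ := hne
  exact ⟨s, hs0, hs1, by linarith, hs⟩

theorem inf_zero {q : ℕ} [NeZero q] (χ : DirichletCharacter ℂ q) (B : ℝ) :
    ∃ s : ℂ, 0 < s.re ∧ s.re < 1 ∧ B < s.im ∧ χ.LFunction s = 0 := by
  obtain ⟨s, h0, h1, h2, h3⟩ := inf_prim χ.primitiveCharacter (DirichletCharacter.primitiveCharacter_isPrimitive _) B
  exact ⟨s, h0, h1, h2, (zero_prim χ h0 h1).2 h3⟩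

/-- there is a nonprincipal character -/
theorem exists_ne_one {q : ℕ} [NeZero q] (hq : 3 ≤ q) : ∃ χ : DirichletCharacter ℂ q, χ ≠ 1 := by
  have h1 : (-1 : ZMod q) ≠ 1 := by
    intro h
    have : Fact (2 < q) := ⟨by omega⟩
    exact ZMod.neg_one_ne_one h
  obtain ⟨χ, hχ⟩ := DirichletCharacter.exists_apply_ne_one_of_hasEnoughRootsOfUnity ℂ h1
  refine ⟨χ, ?_⟩
  rintro rfl
  apply hχ
  exact MulChar.one_apply (isUnit_one.neg)

end Pool.Agent.N967.D
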