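import Mathlib
import Pool.Agent.N967.D.FinS
import Pool.Agent.N967.D.Inf
import Pool.Agent.R311.CenFE

set_option autoImplicit false

/-!
# Hooley's linear independence and Baez-Duarte's distance
-/

namespace Pool.Agent.N967.D

open Complex MeasureTheory Filter Topology

/-- the characters modulo `q` are finitely many -/
@[reducible] noncomputable def fch (q : ℕ) [NeZero q] : Fintype (DirichletCharacter ℂ q) := Fintype.ofFinite _

/-- the nonprincipal characters modulo `q` are finitely many -/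
@[reducible] noncomputable def fch' (q : ℕ) [NeZero q] : Fintype {χ : DirichletCharacter ℂ q // χ ≠ 1} :=
  Fintype.ofFinite _

attribute [local instance] fch fch'

section
variable (q : ℕ) [NeZero q]

/-- the index set: all characters and, once more, all nonprincipal characters -/
abbrev J : Type := DirichletCharacter ℂ q ⊕ {χ : DirichletCharacter ℂ q // χ ≠ 1}

/-- the characters of the family -/
def cf : ∀ _ : J q, DirichletCharacter ℂ q := Sum.elim (fun χ => χ) (fun χ => χ.1)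

/-- the shifts of the family -/
def tf (τ : ℝ) : J q → ℝ := Sum.elim (fun _ => 0) (fun _ => τ)

/-- the total multiplicity of a zero for all characters -/
noncomputable def mA (s : ℂ) : ℕ := ∑ χ : DirichletCharacter ℂ q, analyticOrderNatAt χ.LFunction s

/-- the total multiplicity of a zero for all nonprincipal characters -/
noncomputable def mB (s : ℂ) : ℕ := ∑ χ : {χ : DirichletCharacter ℂ q // χ ≠ 1}, analyticOrderNatAt χ.1.LFunction s

/-- the Riemann hypothesis for all `L(s, χ)`, `χ` modulo `q` -/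
def GRHq : Prop := ∀ (χ : DirichletCharacter ℂ q) (s : ℂ), 0 < s.re → s.re < 1 → χ.LFunction s = 0 → s.re = 1 / 2

/-- the set of positive ordinates -/
def Gam : Set ℝ := {γ : ℝ | 0 < γ ∧ ∃ (χ : DirichletCharacter ℂ q) (s : ℂ), (0 < s.re ∧ s.re < 1) ∧ s.im = γ ∧
  χ.LFunction s = 0}

/-- the pairs (character, zero) -/
abbrev PZ : Type := {p : DirichletCharacter ℂ q × ℂ //
            0 < p.2.re ∧ p.2.re < 1 ∧ 0 < p.2.im ∧ DirichletCharacter.LFunction p.1 p.2 = 0}

/-- Hooley's linear independence modulo `q` (the frozen statement) -/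
def LIq : Prop :=
      (∀ χ : DirichletCharacter ℂ q, ∀ ρ : ℂ, 0 < ρ.re → ρ.re < 1 → 0 < ρ.im →
          DirichletCharacter.LFunction χ ρ = 0 →
          deriv (DirichletCharacter.LFunction χ) ρ ≠ 0) ∧
      LinearIndependent ℚ
        (fun p : {p : DirichletCharacter ℂ q × ℂ //
            0 < p.2.re ∧ p.2.re < 1 ∧ 0 < p.2.im ∧
              DirichletCharacter.LFunction p.1 p.2 = 0} => p.1.2.im)

variable {q}

lemma mult_two (τ : ℝ) (s : ℂ) : mult (cf q) (tf q τ) s = mA q s + mB q (s + τ * I) := by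
  unfold mult mA mB cf tf
  rw [Fintype.sum_sum_type]
  simp

lemma mem_two (τ : ℝ) (s : ℂ) : s ∈ Zeros (cf q) (tf q τ) ↔ (0 < s.re ∧ s.re < 1) ∧
    ((∃ χ : DirichletCharacter ℂ q, χ.LFunction s = 0) ∨
      ∃ χ : DirichletCharacter ℂ q, χ ≠ 1 ∧ χ.LFunction (s + τ * I) = 0) := by
  unfold Zeros cf tf
  constructor
  · rintro ⟨h, i, hi⟩
    refine ⟨h, ?_⟩
    rcases i with χ | χ
    · left
      refine ⟨χ, ?_⟩
      simpa using hi
    · right
      exact ⟨χ.1, χ.2, hi⟩
  · rintro ⟨h, ⟨χ, hχ⟩ | ⟨χ, hχ1, hχ⟩⟩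
    · refine ⟨h, Sum.inl χ, ?_⟩
      simpa using hχ
    · exact ⟨h, Sum.inr ⟨χ, hχ1⟩, hχ⟩

lemma ordN_pos {χ : DirichletCharacter ℂ q} {s : ℂ} (h0 : 0 < s.re) (h1 : s.re < 1) (h : χ.LFunction s = 0) :
    1 ≤ analyticOrderNatAt χ.LFunction s := by
  have hs1 : s ≠ 1 := by
    intro h2
    rw [h2] at h1
    simp at h1
  rw [Nat.one_le_iff_ne_zero]
  intro h5
  have h2 : analyticOrderAt χ.LFunction s ≠ 0 := (L_an hs1).analyticOrderAt_ne_zero.2 h
  apply h2
  have h4 := Nat.cast_analyticOrderNatAt (ord_ne χ h0 h1)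
  rw [← h4, h5]
  rfl

lemma ordN_zero {χ : DirichletCharacter ℂ q} {s : ℂ} (h : χ.LFunction s ≠ 0) :
    analyticOrderNatAt χ.LFunction s = 0 := by
  by_contra hcon
  exact h (apply_eq_zero_of_analyticOrderNatAt_ne_zero hcon)

lemma mA_ge {χ : DirichletCharacter ℂ q} {s : ℂ} (h0 : 0 < s.re) (h1 : s.re < 1) (h : χ.LFunction s = 0) :
    1 ≤ mA q s := by
  refine (ordN_pos h0 h1 h).trans ?_
  exact Finset.single_le_sum (f := fun χ : DirichletCharacter ℂ q => analyticOrderNatAt χ.LFunction s)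
    (fun _ _ => Nat.zero_le _) (Finset.mem_univ χ)

lemma mB_ge {χ : DirichletCharacter ℂ q} (hχ : χ ≠ 1) {s : ℂ} (h0 : 0 < s.re) (h1 : s.re < 1)
    (h : χ.LFunction s = 0) : 1 ≤ mB q s := by
  have h2 : 1 ≤ analyticOrderNatAt χ.LFunction s := ordN_pos h0 h1 h
  have h3 : ∀ φ : {χ : DirichletCharacter ℂ q // χ ≠ 1}, analyticOrderNatAt φ.1.LFunction s ≤ mB q s := by
    intro φ
    unfold mB
    exact Finset.single_le_sum
      (f := fun χ : {χ : DirichletCharacter ℂ q // χ ≠ 1} => analyticOrderNatAt χ.1.LFunction s)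
      (fun _ _ => Nat.zero_le _) (Finset.mem_univ φ)
  exact le_trans h2 (h3 ⟨χ, hχ⟩)

lemma mA_zero {s : ℂ} (h : ∀ χ : DirichletCharacter ℂ q, χ.LFunction s ≠ 0) : mA q s = 0 :=
  Finset.sum_eq_zero fun χ _ => ordN_zero (h χ)

lemma mB_zero {s : ℂ} (h : ∀ χ : DirichletCharacter ℂ q, χ ≠ 1 → χ.LFunction s ≠ 0) : mB q s = 0 :=
  Finset.sum_eq_zero fun χ _ => ordN_zero (h χ.1 χ.2)

lemma exists_of_mA {s : ℂ} (h : mA q s ≠ 0) : ∃ χ : DirichletCharacter ℂ q, χ.LFunction s = 0 := by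
  by_contra hcon
  push Not at hcon
  exact h (mA_zero hcon)

lemma exists_of_mB {s : ℂ} (h : mB q s ≠ 0) : ∃ χ : DirichletCharacter ℂ q, χ ≠ 1 ∧ χ.LFunction s = 0 := by
  by_contra hcon
  push Not at hcon
  exact h (mB_zero hcon)

lemma mB_le (s : ℂ) : mB q s ≤ mA q s := by
  classical
  unfold mB mA
  have h1 : ∑ χ : {χ : DirichletCharacter ℂ q // χ ≠ 1}, analyticOrderNatAt χ.1.LFunction s =
      ∑ χ ∈ (Finset.univ : Finset {χ : DirichletCharacter ℂ q // χ ≠ 1}).map (Function.Embedding.subtype _),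
        analyticOrderNatAt χ.LFunction s := by
    rw [Finset.sum_map]
    rfl
  rw [h1]
  exact Finset.sum_le_sum_of_subset (Finset.subset_univ _)

/-! ### complex conjugation -/

lemma conj_zero {χ : DirichletCharacter ℂ q} {s : ℂ} (hs : s ≠ 1) :
    χ.LFunction s = cj χ⁻¹.LFunction s := by
  unfold cj
  rw [Pool.Agent.R311.LFunction_conj χ s hs, Complex.conj_conj]

lemma conj_ord {χ : DirichletCharacter ℂ q} {s : ℂ} (hs : s ≠ 1) :
    analyticOrderNatAt χ.LFunction s = analyticOrderNatAt χ⁻¹.LFunction ((starRingEnd ℂ) s) := by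
  have hs' : (starRingEnd ℂ) s ≠ 1 := by
    intro h
    apply hs
    have := congrArg (starRingEnd ℂ) h
    simpa using this
  unfold analyticOrderNatAt
  rw [← order_cj (L_an hs')]
  congr 1
  refine analyticOrderAt_congr ?_
  have h2 : ∀ᶠ z in 𝓝 s, z ≠ 1 := isOpen_ne.mem_nhds hs
  filter_upwards [h2] with z hz
  exact conj_zero hz

lemma mA_conj {s : ℂ} (hs : s ≠ 1) : mA q ((starRingEnd ℂ) s) = mA q s := by
  unfold mA
  rw [← Equiv.sum_comp (Equiv.inv (DirichletCharacter ℂ q))]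
  refine Finset.sum_congr rfl fun χ _ => ?_
  rw [Equiv.inv_apply, ← conj_ord hs]

lemma crit_ne (t : ℝ) : (1 / 2 : ℂ) + t * I ≠ 1 := by
  intro h
  have := congrArg Complex.re h
  norm_num at this

lemma crit_re (t : ℝ) : ((1 / 2 : ℂ) + t * I).re = 1 / 2 := by
  norm_num

lemma crit_im (t : ℝ) : ((1 / 2 : ℂ) + t * I).im = t := by
  norm_num

/-- the multiplicities are even in `t` -/
lemma mA_neg (t : ℝ) : mA q (1 / 2 + ((-t : ℝ) : ℂ) * I) = mA q (1 / 2 + t * I) := by
  rw [← mA_conj (crit_ne t)]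
  congr 1
  apply Complex.ext
  · rw [Complex.conj_re, crit_re, crit_re]
  · rw [Complex.conj_im, crit_im, crit_im]

lemma mem_gam {t : ℝ} (ht : 0 < t) (h : mA q (1 / 2 + t * I) ≠ 0) : t ∈ Gam q := by
  obtain ⟨χ, hχ⟩ := exists_of_mA h
  exact ⟨ht, χ, _, by rw [crit_re]; norm_num, crit_im t, hχ⟩

lemma mem_gam_abs {t : ℝ} (ht : t ≠ 0) (h : mA q (1 / 2 + t * I) ≠ 0) : |t| ∈ Gam q := by
  rcases lt_or_gt_of_ne ht with h1 | h1
  · rw [abs_of_neg h1]
    refine mem_gam (by linarith) ?_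
    rwa [mA_neg]
  · rw [abs_of_pos h1]
    exact mem_gam h1 h

lemma eq_crit {s : ℂ} (h : s.re = 1 / 2) : s = 1 / 2 + (s.im : ℂ) * I := by
  apply Complex.ext
  · rw [crit_re, h]
  · rw [crit_im]

/-- the set of ordinates under GRH -/
lemma gam_iff (hG : GRHq q) {t : ℝ} : t ∈ Gam q ↔ 0 < t ∧ mA q (1 / 2 + t * I) ≠ 0 := by
  constructor
  · rintro ⟨h0, χ, s, ⟨h1, h2⟩, h3, h4⟩
    refine ⟨h0, ?_⟩
    have h5 := hG χ s h1 h2 h4
    have h6 := eq_crit h5
    rw [h3] at h6
    rw [← h6]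
    have := mA_ge h1 h2 h4
    omega
  · rintro ⟨h0, h⟩
    exact mem_gam h0 h

/-! ### linear independence in terms of the multiplicities -/

/-- integer relations -/
def LIset : Prop := ∀ (S : Finset ℝ) (m : ℝ → ℤ), (S : Set ℝ) ⊆ Gam q →
  ∑ γ ∈ S, (m γ : ℝ) * γ = 0 → ∀ γ ∈ S, m γ = 0

lemma range_eq : Set.range (fun p : PZ q => p.1.2.im) = Gam q := by
  ext γ
  constructor
  · rintro ⟨⟨⟨χ, s⟩, h0, h1, h2, h3⟩, rfl⟩
    exact ⟨h2, χ, s, ⟨h0, h1⟩, rfl, h3⟩
  · rintro ⟨h2, χ, s, ⟨h0, h1⟩, h, h3⟩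
    exact ⟨⟨(χ, s), h0, h1, by rw [h]; exact h2, h3⟩, h⟩

lemma liset_iff : LIset (q := q) ↔ LinearIndepOn ℚ (id : ℝ → ℝ) (Gam q) := by
  have h1 : LinearIndepOn ℚ (id : ℝ → ℝ) (Gam q) ↔ LinearIndepOn ℤ (id : ℝ → ℝ) (Gam q) := by
    unfold LinearIndepOn
    exact (LinearIndependent.iff_fractionRing ℤ ℚ).symm
  rw [h1, linearIndepOn_iff']
  unfold LIset
  constructor
  · intro h S m hS h2
    refine h S m hS ?_
    simpa using h2
  · intro h S m hS h2
    refine h S m hS ?_
    simpa using h2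

lemma inj_iff (hG : GRHq q) : ((∀ χ : DirichletCharacter ℂ q, ∀ ρ : ℂ, 0 < ρ.re → ρ.re < 1 → 0 < ρ.im →
          DirichletCharacter.LFunction χ ρ = 0 → deriv (DirichletCharacter.LFunction χ) ρ ≠ 0) ∧
      Function.Injective (fun p : PZ q => p.1.2.im)) ↔ ∀ t : ℝ, 0 < t → mA q (1 / 2 + t * I) ≤ 1 := by
  classical
  constructor
  · rintro ⟨h1, h2⟩ t ht
    by_contra hcon
    have hne : mA q (1 / 2 + t * I) ≠ 0 := by omega
    obtain ⟨χ, hχ⟩ := exists_of_mA hne
    have hre0 : 0 < ((1 / 2 : ℂ) + t * I).re := by rw [crit_re]; norm_num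
    have hre1 : ((1 / 2 : ℂ) + t * I).re < 1 := by rw [crit_re]; norm_num
    have him : 0 < ((1 / 2 : ℂ) + t * I).im := by rw [crit_im]; exact ht
    have hd := h1 χ _ hre0 hre1 him hχ
    have ho : analyticOrderNatAt χ.LFunction (1 / 2 + t * I) = 1 := by
      unfold analyticOrderNatAt
      rw [(L_an (crit_ne t)).analyticOrderAt_eq_one_of_zero_deriv_ne_zero hχ hd]
      rfl
    have hsum : mA q (1 / 2 + t * I) = 1 := by
      unfold mA
      rw [Finset.sum_eq_single χ, ho]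
      · intro ψ _ hψ
        refine ordN_zero fun h3 => hψ ?_
        have h4 := @h2 ⟨(ψ, 1 / 2 + t * I), hre0, hre1, him, h3⟩ ⟨(χ, 1 / 2 + t * I), hre0, hre1, him, hχ⟩ rfl
        have h5 := congrArg (fun p : PZ q => p.1.1) h4
        exact h5
      · intro h
        exact absurd (Finset.mem_univ χ) h
    omega
  · intro h
    constructor
    · intro χ ρ h0 h1 h2 h3 h4
      have h5 := hG χ ρ h0 h1 h3
      have h6 := eq_crit h5
      have h7 := h ρ.im h2
      rw [← h6] at h7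
      have h8 : analyticOrderNatAt χ.LFunction ρ ≤ mA q ρ :=
        Finset.single_le_sum (f := fun χ : DirichletCharacter ℂ q => analyticOrderNatAt χ.LFunction ρ)
          (fun _ _ => Nat.zero_le _) (Finset.mem_univ χ)
      have h9 := ordN_pos h0 h1 h3
      have h10 : analyticOrderNatAt χ.LFunction ρ = 1 := by omega
      have hρ1 : ρ ≠ 1 := by
        intro h
        rw [h] at h1
        simp at h1
      have han := L_an (χ := χ) hρ1
      have h11 := han.analyticOrderAt_deriv_add_one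
      have h12 : analyticOrderAt χ.LFunction ρ = 1 := by
        rw [← Nat.cast_analyticOrderNatAt (ord_ne χ h0 h1), h10]
        rfl
      have h13 : (fun z => χ.LFunction z - χ.LFunction ρ) = χ.LFunction := by
        funext z
        rw [h3, sub_zero]
      have h14 : analyticOrderAt (deriv χ.LFunction) ρ ≠ 0 := by
        rw [han.deriv.analyticOrderAt_ne_zero]
        exact h4
      have h15 : analyticOrderAt (deriv χ.LFunction) ρ + 1 = 1 := by
        rw [h11]
        rw [show (χ.LFunction · - χ.LFunction ρ) = χ.LFunction from h13]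
        exact h12
      generalize analyticOrderAt (deriv χ.LFunction) ρ = x at h14 h15
      induction x using ENat.recTopCoe with
      | top => simp at h15
      | coe n =>
        have h16 : n + 1 = 1 := by exact_mod_cast h15
        have h17 : n = 0 := by omega
        exact h14 (by rw [h17]; rfl)
    · rintro ⟨⟨χ, s⟩, a0, a1, a2, a3⟩ ⟨⟨ψ, s'⟩, b0, b1, b2, b3⟩ him
      simp only at a0 a1 a2 a3 b0 b1 b2 b3 him
      have hs : s = s' := by
        apply Complex.ext
        · rw [hG χ s a0 a1 a3, hG ψ s' b0 b1 b3]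
        · exact him
      subst hs
      have h7 := h s.im a2
      rw [← eq_crit (hG χ s a0 a1 a3)] at h7
      have hχψ : χ = ψ := by
        by_contra hne
        have h3 : ∑ φ ∈ ({χ, ψ} : Finset (DirichletCharacter ℂ q)), analyticOrderNatAt φ.LFunction s ≤ mA q s :=
          Finset.sum_le_sum_of_subset (Finset.subset_univ _)
        rw [Finset.sum_pair hne] at h3
        have h4 := ordN_pos a0 a1 a3
        have h5 := ordN_pos b0 b1 b3
        omega
      subst hχψ
      rfl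

lemma li_iff (hG : GRHq q) : LIq q ↔ (∀ t : ℝ, 0 < t → mA q (1 / 2 + t * I) ≤ 1) ∧ LIset (q := q) := by
  rw [← inj_iff hG, liset_iff, ← range_eq]
  unfold LIq
  constructor
  · rintro ⟨h1, h2⟩
    exact ⟨⟨h1, h2.injective⟩, (linearIndepOn_id_range_iff h2.injective).2 h2⟩
  · rintro ⟨⟨h1, h2⟩, h3⟩
    exact ⟨h1, (linearIndepOn_id_range_iff h2).1 h3⟩

end

end Pool.Agent.N967.D
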