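import Mathlib
import Pool.Agent.N967.D.LI

set_option autoImplicit false

/-!
# Hooley's linear independence and Baez-Duarte's distance: the equivalence
-/

namespace Pool.Agent.N967.D

open Complex MeasureTheory Filter Topology

attribute [local instance] fch fch'

section
variable {q : ℕ} [NeZero q]

lemma cond_tf (τ : ℝ) (i : J q) (h : (cf q i).conductor = 1) : tf q τ i = 0 := by
  rcases i with χ | χ
  · rfl
  · exfalso
    exact χ.2 ((DirichletCharacter.eq_one_iff_conductor_eq_one (χ := χ.1)).2 h)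

instance : Nonempty (J q) := ⟨Sum.inl 1⟩

lemma grh_two (τ : ℝ) : GRH (cf q) (tf q τ) ↔ GRHq q := by
  constructor
  · intro h χ s h0 h1 h2
    exact h s ((mem_two τ s).2 ⟨⟨h0, h1⟩, Or.inl ⟨χ, h2⟩⟩)
  · intro h s hs
    obtain ⟨⟨h0, h1⟩, ⟨χ, hχ⟩ | ⟨χ, -, hχ⟩⟩ := (mem_two τ s).1 hs
    · exact h χ s h0 h1 hχ
    · have := h χ _ (by rwa [re_shift]) (by rwa [re_shift]) hχ
      rwa [re_shift] at this

/-- the multiplicity at `1/2 + it` for all characters -/
noncomputable def aa (q : ℕ) [NeZero q] (t : ℝ) : ℕ := mA q (1 / 2 + t * I)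

/-- the multiplicity at `1/2 + it` for all nonprincipal characters -/
noncomputable def bb (q : ℕ) [NeZero q] (t : ℝ) : ℕ := mB q (1 / 2 + t * I)

/-- the correction for zeros at `1/2` -/
noncomputable def Ec (q : ℕ) [NeZero q] (τ : ℝ) : ℝ :=
  4 * ((aa q 0 : ℝ) * ((aa q 0 : ℝ) - 1)) + ((bb q 0 : ℝ) * ((bb q 0 : ℝ) - 1)) / (1 / 4 + τ ^ 2)

lemma aa_neg (t : ℝ) : aa q (-t) = aa q t := mA_neg t

lemma bb_le (t : ℝ) : bb q t ≤ aa q t := mB_le _

lemma mult_p (τ t : ℝ) : mult (cf q) (tf q τ) (1 / 2 + t * I) = aa q t + bb q (t + τ) := by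
  rw [mult_two]
  unfold aa bb
  congr 2
  push_cast
  ring

lemma norm_p (t : ℝ) : ‖(1 / 2 : ℂ) + t * I‖ ^ 2 = 1 / 4 + t ^ 2 := by
  rw [Complex.sq_norm, Complex.normSq_apply, crit_re, crit_im]
  ring

/-- the excess at a point -/
noncomputable def GG (q : ℕ) [NeZero q] (τ : ℝ) (s : ℂ) : ℝ :=
  Set.indicator (Zeros (cf q) (tf q τ))
    (fun s => ((mult (cf q) (tf q τ) s : ℝ) ^ 2 - (mult (cf q) (tf q τ) s : ℝ)) / ‖s‖ ^ 2) s

lemma GG_val (τ t : ℝ) : GG q τ (1 / 2 + t * I) =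
    (((aa q t + bb q (t + τ) : ℕ) : ℝ) * (((aa q t + bb q (t + τ) : ℕ) : ℝ) - 1)) / (1 / 4 + t ^ 2) := by
  unfold GG
  by_cases h : (1 / 2 : ℂ) + t * I ∈ Zeros (cf q) (tf q τ)
  · rw [Set.indicator_of_mem h, mult_p, norm_p]
    ring
  · rw [Set.indicator_of_notMem h]
    have hre : 0 < ((1 / 2 : ℂ) + t * I).re ∧ ((1 / 2 : ℂ) + t * I).re < 1 := by
      rw [crit_re]
      norm_num
    have h1 : aa q t = 0 := by
      by_contra hcon
      obtain ⟨χ, hχ⟩ := exists_of_mA hcon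
      exact h ((mem_two τ _).2 ⟨hre, Or.inl ⟨χ, hχ⟩⟩)
    have h2 : bb q (t + τ) = 0 := by
      by_contra hcon
      obtain ⟨χ, hχ1, hχ⟩ := exists_of_mB hcon
      refine h ((mem_two τ _).2 ⟨hre, Or.inr ⟨χ, hχ1, ?_⟩⟩)
      rw [← hχ]
      congr 1
      push_cast
      ring
    rw [h1, h2]
    simp

lemma nat_nonneg (n : ℕ) : (0 : ℝ) ≤ (n : ℝ) * ((n : ℝ) - 1) := by
  rcases Nat.eq_zero_or_pos n with rfl | h
  · simp
  · have : (1 : ℝ) ≤ n := by exact_mod_cast h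
    exact mul_nonneg (by linarith) (by linarith)

lemma nat_mono {m n : ℕ} (h : m ≤ n) : (m : ℝ) * ((m : ℝ) - 1) ≤ (n : ℝ) * ((n : ℝ) - 1) := by
  rcases Nat.eq_zero_or_pos m with rfl | hm
  · simpa using nat_nonneg n
  · have h1 : (1 : ℝ) ≤ m := by exact_mod_cast hm
    have h2 : (m : ℝ) ≤ n := by exact_mod_cast h
    nlinarith

lemma nat_le_one {n : ℕ} (h : (n : ℝ) * ((n : ℝ) - 1) ≤ 0) : n ≤ 1 := by
  by_contra hcon
  have h1 : (2 : ℝ) ≤ n := by exact_mod_cast (by omega : 2 ≤ n)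
  nlinarith

lemma GG_nonneg (τ : ℝ) (s : ℂ) : 0 ≤ GG q τ s := by
  unfold GG
  refine Set.indicator_nonneg (fun s _ => ?_) s
  have := nat_nonneg (mult (cf q) (tf q τ) s)
  exact div_nonneg (by nlinarith) (by positivity)

lemma hasSum_GG (τ : ℝ) (hG : GRHq q) : HasSum (GG q τ)
    ((∑' ρ : Zeros (cf q) (tf q τ), (mult (cf q) (tf q τ) (ρ : ℂ) : ℝ) ^ 2 / ‖(ρ : ℂ)‖ ^ 2) -
      Ct (cf q) (tf q τ)) := by
  have hA := asy (cf q) (tf q τ) (cond_tf τ)
  have hG' := (grh_two τ).2 hG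
  have h1 := (hA.summable hG').hasSum.sub (hA.first_moment hG')
  have h2 : HasSum ((fun s : ℂ => ((mult (cf q) (tf q τ) s : ℝ) ^ 2 - (mult (cf q) (tf q τ) s : ℝ)) / ‖s‖ ^ 2) ∘
      ((↑) : Zeros (cf q) (tf q τ) → ℂ))
      ((∑' ρ : Zeros (cf q) (tf q τ), (mult (cf q) (tf q τ) (ρ : ℂ) : ℝ) ^ 2 / ‖(ρ : ℂ)‖ ^ 2) -
      Ct (cf q) (tf q τ)) := by
    have h3 : ((fun s : ℂ => ((mult (cf q) (tf q τ) s : ℝ) ^ 2 - (mult (cf q) (tf q τ) s : ℝ)) / ‖s‖ ^ 2) ∘
      ((↑) : Zeros (cf q) (tf q τ) → ℂ)) = fun ρ : Zeros (cf q) (tf q τ) =>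
        (mult (cf q) (tf q τ) (ρ : ℂ) : ℝ) ^ 2 / ‖(ρ : ℂ)‖ ^ 2 -
          (mult (cf q) (tf q τ) (ρ : ℂ) : ℝ) / ‖(ρ : ℂ)‖ ^ 2 := by
      funext ρ
      rw [Function.comp_apply, ← sub_div]
    rw [h3]
    exact h1
  exact hasSum_subtype_iff_indicator.1 h2

lemma p_inj {t u : ℝ} (h : t ≠ u) : (1 / 2 : ℂ) + t * I ≠ 1 / 2 + u * I := by
  intro h1
  have := congrArg Complex.im h1
  rw [crit_im, crit_im] at this
  exact h this

/-- a nonprincipal zero with large ordinate -/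
lemma exists_bb (hq : 3 ≤ q) (hG : GRHq q) (B : ℝ) : ∃ t : ℝ, B < t ∧ 0 < t ∧ 1 ≤ aa q t ∧ 1 ≤ bb q t := by
  obtain ⟨χ, hχ⟩ := exists_ne_one hq
  obtain ⟨s, h0, h1, h2, h3⟩ := inf_zero χ (max B 0)
  have h4 := eq_crit (hG χ s h0 h1 h3)
  refine ⟨s.im, (le_max_left _ _).trans_lt h2, (le_max_right _ _).trans_lt h2, ?_, ?_⟩
  · have := mA_ge h0 h1 h3
    rw [h4] at this
    exact this
  · have := mB_ge hχ h0 h1 h3
    rw [h4] at this
    exact this

/-- the consequences of the limit formula for one `τ` -/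
lemma conseq (hq : 3 ≤ q) (hG : GRHq q) {τ : ℝ}
    (h : ∑' ρ : Zeros (cf q) (tf q τ), (mult (cf q) (tf q τ) (ρ : ℂ) : ℝ) ^ 2 / ‖(ρ : ℂ)‖ ^ 2 =
      Ct (cf q) (tf q τ) + Ec q τ) :
    τ ≠ 0 ∧ ∀ t : ℝ, t ≠ 0 → t ≠ -τ → aa q t + bb q (t + τ) ≤ 1 := by
  classical
  have hS := hasSum_GG τ hG
  rw [h, add_sub_cancel_left] at hS
  have h00 : GG q τ (1 / 2 + ((0 : ℝ) : ℂ) * I) = 4 * (((aa q 0 + bb q τ : ℕ) : ℝ) * (((aa q 0 + bb q τ : ℕ) : ℝ) - 1)) := by
    rw [GG_val, zero_add]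
    ring
  have h1 : τ ≠ 0 := by
    rintro rfl
    obtain ⟨t, -, ht, ha, hb⟩ := exists_bb hq hG 0
    have h2 := sum_le_hasSum {(1 / 2 + ((0 : ℝ) : ℂ) * I : ℂ), 1 / 2 + t * I} (fun s _ => GG_nonneg (q := q) 0 s) hS
    rw [Finset.sum_pair (p_inj ht.ne), h00, GG_val, add_zero] at h2
    unfold Ec at h2
    have h3 : (2 : ℝ) ≤ ((aa q t + bb q t : ℕ) : ℝ) := by exact_mod_cast (by omega : 2 ≤ aa q t + bb q t)
    have h4 : 0 < (((aa q t + bb q t : ℕ) : ℝ) * (((aa q t + bb q t : ℕ) : ℝ) - 1)) / (1 / 4 + t ^ 2) := by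
      refine div_pos (mul_pos (by linarith) (by linarith)) (by positivity)
    have h5 : (0 : ℝ) ≤ (aa q 0 : ℝ) * (bb q 0 : ℝ) := by positivity
    push_cast at h2 h4
    have h6 : ((bb q 0 : ℝ) * ((bb q 0 : ℝ) - 1)) / (1 / 4 + 0 ^ 2) = 4 * ((bb q 0 : ℝ) * ((bb q 0 : ℝ) - 1)) := by ring
    rw [h6] at h2
    nlinarith
  refine ⟨h1, fun t ht0 ht1 => ?_⟩
  have h2 := sum_le_hasSum {(1 / 2 + ((0 : ℝ) : ℂ) * I : ℂ), 1 / 2 + ((-τ : ℝ) : ℂ) * I, 1 / 2 + t * I}
    (fun s _ => GG_nonneg (q := q) τ s) hS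
  rw [Finset.sum_insert, Finset.sum_pair (p_inj (Ne.symm ht1)), h00, GG_val τ (-τ), GG_val τ t,
    neg_add_cancel] at h2
  · unfold Ec at h2
    have h3 := nat_mono (show aa q 0 ≤ aa q 0 + bb q τ by omega)
    have h4 := nat_mono (show bb q 0 ≤ aa q (-τ) + bb q 0 by omega)
    have h5 : ((bb q 0 : ℝ) * ((bb q 0 : ℝ) - 1)) / (1 / 4 + τ ^ 2) ≤
        (((aa q (-τ) + bb q 0 : ℕ) : ℝ) * (((aa q (-τ) + bb q 0 : ℕ) : ℝ) - 1)) / (1 / 4 + (-τ) ^ 2) := by
      rw [neg_sq]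
      exact div_le_div_of_nonneg_right h4 (by positivity)
    have h6 : (((aa q t + bb q (t + τ) : ℕ) : ℝ) * (((aa q t + bb q (t + τ) : ℕ) : ℝ) - 1)) / (1 / 4 + t ^ 2) ≤ 0 := by
      linarith
    apply nat_le_one
    have h7 : (0 : ℝ) < 1 / 4 + t ^ 2 := by positivity
    by_contra hcon
    have h8 := div_pos (not_le.1 hcon) h7
    linarith
  · intro hmem
    rcases Finset.mem_insert.1 hmem with h3 | h3
    · exact p_inj (show (0 : ℝ) ≠ -τ from fun h => h1 (by linarith)) h3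
    · exact p_inj (Ne.symm ht0) (Finset.mem_singleton.1 h3)

/-- integer combinations of at least three ordinates are not combinations of at most two -/
lemma comb (hLI : LIset (q := q)) {S : Finset ℝ} (hS : (S : Set ℝ) ⊆ Gam q) (hc : 3 ≤ S.card) {m : ℝ → ℤ}
    (hm : ∀ γ ∈ S, m γ ≠ 0) {u v : ℝ} (hu : u ∈ Gam q) (hv : v ∈ Gam q) (c d : ℤ) :
    ∑ γ ∈ S, (m γ : ℝ) * γ ≠ c * u + d * v := by
  classical
  intro h
  obtain ⟨γ0, h0, h1⟩ : ∃ γ0 ∈ S, γ0 ∉ ({u, v} : Finset ℝ) := by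
    by_contra hcon
    push Not at hcon
    have h2 : S ⊆ ({u, v} : Finset ℝ) := hcon
    have h3 := Finset.card_le_card h2
    have h4 := Finset.card_le_two (a := u) (b := v)
    omega
  have hT : ((S ∪ {u, v} : Finset ℝ) : Set ℝ) ⊆ Gam q := by
    intro x hx
    rw [Finset.coe_union, Set.mem_union] at hx
    rcases hx with hx | hx
    · exact hS hx
    · rw [Finset.mem_coe, Finset.mem_insert, Finset.mem_singleton] at hx
      rcases hx with rfl | rfl
      · exact hu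
      · exact hv
  have key := hLI (S ∪ {u, v}) (fun γ => (if γ ∈ S then m γ else 0) - (if γ = u then c else 0) - (if γ = v then d else 0))
    hT ?_ γ0 (Finset.mem_union_left _ h0)
  · have h2 : γ0 ≠ u := fun h => h1 (by rw [h]; simp)
    have h3 : γ0 ≠ v := fun h => h1 (by rw [h]; simp)
    rw [if_pos h0, if_neg h2, if_neg h3] at key
    exact hm γ0 h0 (by linarith)
  · have e1 : ∑ γ ∈ S ∪ {u, v}, (((if γ ∈ S then m γ else 0 : ℤ) : ℝ)) * γ = ∑ γ ∈ S, (m γ : ℝ) * γ := by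
      rw [← Finset.sum_subset (Finset.subset_union_left (s₁ := S) (s₂ := {u, v})) (fun x _ hx => by simp [hx])]
      exact Finset.sum_congr rfl fun x hx => by rw [if_pos hx]
    have e2 : ∑ γ ∈ S ∪ {u, v}, (((if γ = u then c else 0 : ℤ) : ℝ)) * γ = c * u := by
      rw [Finset.sum_eq_single u]
      · rw [if_pos rfl]
      · intro x _ hx
        rw [if_neg hx]
        simp
      · intro h3
        exact absurd (Finset.mem_union_right _ (by simp)) h3
    have e3 : ∑ γ ∈ S ∪ {u, v}, (((if γ = v then d else 0 : ℤ) : ℝ)) * γ = d * v := by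
      rw [Finset.sum_eq_single v]
      · rw [if_pos rfl]
      · intro x _ hx
        rw [if_neg hx]
        simp
      · intro h3
        exact absurd (Finset.mem_union_right _ (by simp)) h3
    have e4 : ∀ γ ∈ S ∪ {u, v}, ((((if γ ∈ S then m γ else 0) - (if γ = u then c else 0) -
        (if γ = v then d else 0) : ℤ) : ℝ)) * γ = (((if γ ∈ S then m γ else 0 : ℤ) : ℝ)) * γ -
        (((if γ = u then c else 0 : ℤ) : ℝ)) * γ - (((if γ = v then d else 0 : ℤ) : ℝ)) * γ := by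
      intro γ _
      push_cast
      ring
    rw [Finset.sum_congr rfl e4, Finset.sum_sub_distrib, Finset.sum_sub_distrib, e1, e2, e3, h]
    ring

/-- the limit formula under GRH and linear independence -/
lemma formula (hG : GRHq q) (hsim : ∀ t : ℝ, 0 < t → aa q t ≤ 1) (hLI : LIset (q := q)) {S : Finset ℝ}
    (hS : (S : Set ℝ) ⊆ Gam q) (hc : 3 ≤ S.card) {m : ℝ → ℤ} (hm : ∀ γ ∈ S, m γ ≠ 0) {τ : ℝ}
    (hτ : τ = ∑ γ ∈ S, (m γ : ℝ) * γ) :
    ∑' ρ : Zeros (cf q) (tf q τ), (mult (cf q) (tf q τ) (ρ : ℂ) : ℝ) ^ 2 / ‖(ρ : ℂ)‖ ^ 2 =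
      Ct (cf q) (tf q τ) + Ec q τ := by
  classical
  have hcomb : ∀ u ∈ Gam q, ∀ v ∈ Gam q, ∀ c d : ℤ, τ ≠ c * u + d * v := by
    intro u hu v hv c d
    rw [hτ]
    exact comb hLI hS hc hm hu hv c d
  have hab : ∀ x : ℝ, ∃ c : ℤ, x = c * |x| := by
    intro x
    rcases le_total 0 x with h | h
    · exact ⟨1, by rw [abs_of_nonneg h]; simp⟩
    · exact ⟨-1, by rw [abs_of_nonpos h]; simp⟩
  have hτ0 : τ ≠ 0 := by
    obtain ⟨γ, hγ⟩ : S.Nonempty := Finset.card_pos.1 (by omega)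
    have := hcomb γ (hS hγ) γ (hS hγ) 0 0
    simpa using this
  have hsim' : ∀ t : ℝ, t ≠ 0 → aa q t ≤ 1 := by
    intro t ht
    rcases lt_or_gt_of_ne ht with h | h
    · rw [← aa_neg]
      exact hsim _ (by linarith)
    · exact hsim t h
  have haτ : aa q τ = 0 := by
    by_contra hcon
    have h1 := mem_gam_abs hτ0 hcon
    obtain ⟨c, hc⟩ := hab τ
    exact hcomb _ h1 _ h1 c 0 (by rw [← hc]; simp)
  have hbτ : bb q τ = 0 := by
    have := bb_le (q := q) τ
    omega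
  have haτ' : aa q (-τ) = 0 := by rw [aa_neg, haτ]
  have hz : ∀ t : ℝ, t ≠ 0 → t ≠ -τ → aa q t + bb q (t + τ) ≤ 1 := by
    intro t ht0 ht1
    have h1 := hsim' t ht0
    have h2 : t + τ ≠ 0 := fun h => ht1 (by linarith)
    have h3 := hsim' (t + τ) h2
    have h4 := bb_le (q := q) (t + τ)
    by_contra hcon
    have h5 : aa q t ≠ 0 := by omega
    have h6 : aa q (t + τ) ≠ 0 := by omega
    have h7 := mem_gam_abs ht0 h5
    have h8 := mem_gam_abs h2 h6
    obtain ⟨c, hc⟩ := hab (t + τ)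
    obtain ⟨d, hd⟩ := hab t
    refine hcomb _ h8 _ h7 c (-d) ?_
    have h9 : ((-d : ℤ) : ℝ) * |t| = -t := by
      push_cast
      rw [neg_mul, ← hd]
    rw [← hc, h9]
    ring
  have hGz : ∀ s ∉ ({(1 / 2 + ((0 : ℝ) : ℂ) * I : ℂ), 1 / 2 + ((-τ : ℝ) : ℂ) * I} : Finset ℂ), GG q τ s = 0 := by
    intro s hs
    by_cases hZ : s ∈ Zeros (cf q) (tf q τ)
    · have h1 := eq_crit ((grh_two τ).2 hG s hZ)
      have h2 : s.im ≠ 0 := by
        intro h
        apply hs
        rw [h1, h]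
        simp
      have h3 : s.im ≠ -τ := by
        intro h
        apply hs
        rw [h1, h]
        simp
      have h4 := hz s.im h2 h3
      rw [h1, GG_val]
      have h5 : aa q s.im + bb q (s.im + τ) = 0 ∨ aa q s.im + bb q (s.im + τ) = 1 := by omega
      rcases h5 with h5 | h5
      · rw [h5]
        simp
      · rw [h5]
        simp
    · unfold GG
      exact Set.indicator_of_notMem hZ _
  have h1 : HasSum (GG q τ) (∑ s ∈ ({(1 / 2 + ((0 : ℝ) : ℂ) * I : ℂ), 1 / 2 + ((-τ : ℝ) : ℂ) * I} : Finset ℂ), GG q τ s) :=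
    hasSum_sum_of_ne_finset_zero hGz
  have h2 := (hasSum_GG τ hG).unique h1
  rw [Finset.sum_pair (p_inj (show (0 : ℝ) ≠ -τ from fun h => hτ0 (by linarith))), GG_val, GG_val, zero_add,
    neg_add_cancel, hbτ, haτ', add_zero, zero_add, neg_sq] at h2
  unfold Ec
  have h3 : ((aa q 0 : ℝ) * ((aa q 0 : ℝ) - 1)) / (1 / 4 + 0 ^ 2) = 4 * ((aa q 0 : ℝ) * ((aa q 0 : ℝ) - 1)) := by ring
  rw [h3] at h2
  linarith

lemma Ec_nonneg (τ : ℝ) : 0 ≤ Ec q τ := by
  unfold Ec
  have h1 := nat_nonneg (aa q 0)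
  have h2 := nat_nonneg (bb q 0)
  positivity

/-- the equivalence of the limit and the formula, under GRH -/
lemma limit_iff (hG : GRHq q) (τ : ℝ) :
    Tendsto (sc (cf q) (tf q τ)) atTop (𝓝 (ENNReal.ofReal (Ct (cf q) (tf q τ) + Ec q τ))) ↔
    ∑' ρ : Zeros (cf q) (tf q τ), (mult (cf q) (tf q τ) (ρ : ℂ) : ℝ) ^ 2 / ‖(ρ : ℂ)‖ ^ 2 =
      Ct (cf q) (tf q τ) + Ec q τ := by
  have hA := asy (cf q) (tf q τ) (cond_tf τ)
  have hG' := (grh_two τ).2 hG
  have hC : 0 ≤ Ct (cf q) (tf q τ) := by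
    rw [← (hA.first_moment hG').tsum_eq]
    exact tsum_nonneg fun ρ => by positivity
  constructor
  · intro h
    have h1 := tendsto_nhds_unique (hA.asymptotic hG') h
    rwa [ENNReal.ofReal_eq_ofReal_iff (tsum_nonneg fun ρ => by positivity)
      (add_nonneg hC (Ec_nonneg τ))] at h1
  · intro h
    rw [← h]
    exact hA.asymptotic hG'

/-- **the main theorem** -/
theorem main (hq : 3 ≤ q) : (GRHq q ∧ LIq q) ↔ ∀ (S : Finset ℝ) (m : ℝ → ℤ), (S : Set ℝ) ⊆ Gam q → 3 ≤ S.card →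
    (∀ γ ∈ S, m γ ≠ 0) →
    Tendsto (sc (cf q) (tf q (∑ γ ∈ S, (m γ : ℝ) * γ))) atTop
      (𝓝 (ENNReal.ofReal (Ct (cf q) (tf q (∑ γ ∈ S, (m γ : ℝ) * γ)) + Ec q (∑ γ ∈ S, (m γ : ℝ) * γ)))) := by
  classical
  constructor
  · rintro ⟨hG, hL⟩ S m hS hc hm
    obtain ⟨h1, h2⟩ := (li_iff hG).1 hL
    exact (limit_iff hG _).2 (formula hG h1 h2 hS hc hm rfl)
  · intro h
    -- three ordinates
    have hinf : ∀ B : ℝ, ∃ γ ∈ Gam q, B < γ := by
      intro B
      obtain ⟨s, h0, h1, h2, h3⟩ := inf_zero (1 : DirichletCharacter ℂ q) (max B 0)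
      exact ⟨s.im, ⟨(le_max_right _ _).trans_lt h2, 1, s, ⟨h0, h1⟩, rfl, h3⟩, (le_max_left _ _).trans_lt h2⟩
    obtain ⟨g1, hg1, -⟩ := hinf 0
    obtain ⟨g2, hg2, h12⟩ := hinf g1
    obtain ⟨g3, hg3, h23⟩ := hinf g2
    have hc3 : ({g1, g2, g3} : Finset ℝ).card = 3 := by
      rw [Finset.card_insert_of_notMem, Finset.card_insert_of_notMem, Finset.card_singleton]
      · simp only [Finset.mem_singleton]
        exact h23.ne
      · simp only [Finset.mem_insert, Finset.mem_singleton, not_or]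
        exact ⟨h12.ne, (h12.trans h23).ne⟩
    have hsub : (({g1, g2, g3} : Finset ℝ) : Set ℝ) ⊆ Gam q := by
      intro x hx
      simp only [Finset.coe_insert, Finset.coe_singleton, Set.mem_insert_iff, Set.mem_singleton_iff] at hx
      rcases hx with rfl | rfl | rfl <;> assumption
    have h0 := h {g1, g2, g3} (fun _ => 1) hsub hc3.ge (fun _ _ => one_ne_zero)
    have hG : GRHq q := by
      refine (grh_two _).1 ((asy (cf q) (tf q _) (cond_tf _)).iff_limit.2 ⟨_, ENNReal.ofReal_ne_top, h0⟩)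
    obtain ⟨hτ0, hτ1⟩ := conseq hq hG ((limit_iff hG _).1 h0)
    set τ0 : ℝ := ∑ γ ∈ ({g1, g2, g3} : Finset ℝ), (((fun _ => 1 : ℝ → ℤ) γ : ℤ) : ℝ) * γ with hτdef
    refine ⟨hG, (li_iff hG).2 ⟨fun t ht => ?_, ?_⟩⟩
    · show aa q t ≤ 1
      by_cases h1 : t = -τ0
      · have h2 : -t ≠ 0 := by
          intro h
          linarith
        have h3 : -t ≠ -τ0 := by
          intro h
          linarith
        have h4 := hτ1 (-t) h2 h3
        rw [aa_neg] at h4
        omega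
      · have h4 := hτ1 t ht.ne' h1
        omega
    · intro S m hS hsum γ hγ
      by_contra hne
      set S' : Finset ℝ := S.filter fun γ => m γ ≠ 0 with hS'def
      have hγ' : γ ∈ S' := Finset.mem_filter.2 ⟨hγ, hne⟩
      have hS'G : (S' : Set ℝ) ⊆ Gam q := fun x hx => hS (Finset.mem_filter.1 hx).1
      have hsum' : ∑ γ ∈ S', (m γ : ℝ) * γ = 0 := by
        rw [← hsum]
        refine Finset.sum_subset (Finset.filter_subset _ _) fun x hx hx' => ?_
        have : m x = 0 := by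
          by_contra h1
          exact hx' (Finset.mem_filter.2 ⟨hx, h1⟩)
        rw [this]
        simp
      -- two large ordinates
      obtain ⟨B, hB⟩ : ∃ B : ℝ, ∀ x ∈ S', x ≤ B := ⟨∑ x ∈ S', |x|, fun x hx =>
        (le_abs_self x).trans (Finset.single_le_sum (f := fun x => |x|) (fun _ _ => abs_nonneg _) hx)⟩
      obtain ⟨ga, hga1, hga0, haa, hba⟩ := exists_bb hq hG B
      obtain ⟨gb, hgb, hgb1⟩ := hinf ga
      have hgaG : ga ∈ Gam q := (gam_iff hG).2 ⟨hga0, by unfold aa at haa; omega⟩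
      have haS : ga ∉ S' := fun h => absurd (hB ga h) (by linarith)
      have hbS : gb ∉ S' := fun h => absurd (hB gb h) (by linarith)
      have hab : ga ≠ gb := hgb1.ne
      have hbT : gb ∉ insert ga S' := by
        rw [Finset.mem_insert, not_or]
        exact ⟨hab.symm, hbS⟩
      have hcard : 3 ≤ (insert gb (insert ga S')).card := by
        rw [Finset.card_insert_of_notMem hbT, Finset.card_insert_of_notMem haS]
        have : 0 < S'.card := Finset.card_pos.2 ⟨γ, hγ'⟩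
        omega
      have hTG : ((insert gb (insert ga S') : Finset ℝ) : Set ℝ) ⊆ Gam q := by
        intro x hx
        rw [Finset.mem_coe, Finset.mem_insert, Finset.mem_insert] at hx
        rcases hx with rfl | rfl | hx
        · exact hgb
        · exact hgaG
        · exact hS'G hx
      set m' : ℝ → ℤ := fun x => if x = ga then 1 else if x = gb then -1 else m x with hm'
      have hm'0 : ∀ x ∈ insert gb (insert ga S'), m' x ≠ 0 := by
        intro x hx
        rw [hm']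
        simp only
        split_ifs with h1 h2
        · exact one_ne_zero
        · norm_num
        · rw [Finset.mem_insert, Finset.mem_insert] at hx
          rcases hx with h3 | h3 | h3
          · exact absurd h3 h2
          · exact absurd h3 h1
          · exact (Finset.mem_filter.1 h3).2
      have hτeq : ∑ x ∈ insert gb (insert ga S'), (m' x : ℝ) * x = ga - gb := by
        rw [Finset.sum_insert hbT, Finset.sum_insert haS]
        have h1 : ∑ x ∈ S', (m' x : ℝ) * x = ∑ x ∈ S', (m x : ℝ) * x := by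
          refine Finset.sum_congr rfl fun x hx => ?_
          have h2 : x ≠ ga := fun h => haS (h ▸ hx)
          have h3 : x ≠ gb := fun h => hbS (h ▸ hx)
          rw [hm']
          simp only
          rw [if_neg h2, if_neg h3]
        rw [h1, hsum', hm']
        simp only
        rw [if_neg hab.symm]
        simp only [if_true]
        push_cast
        ring
      have h1 := h (insert gb (insert ga S')) m' hTG hcard hm'0
      rw [hτeq] at h1
      obtain ⟨h2, h3⟩ := conseq hq hG ((limit_iff hG _).1 h1)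
      have hgb0 : 0 < gb := by linarith
      have h4 := h3 gb hgb0.ne' (by
        intro h
        linarith)
      have h5 : 1 ≤ aa q gb := by
        have := ((gam_iff hG).1 hgb).2
        unfold aa
        omega
      have h6 : gb + (ga - gb) = ga := by ring
      rw [h6] at h4
      omega

end

end Pool.Agent.N967.D
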